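import Pool.Graph.R_seed8.H12R2.And4

set_option autoImplicit false

/-! Exponential decay from a spectral gap in a cube (Combes-Thomas). -/

namespace Pool.Agent.H39.R1

open Finset Complex
open Pool.Agent.H12R2.And (V ee Q mem_Q card_Q Q_mono Q_trans Q_symm self_mem_Q NR NR_complex Good hop
  pot hop_sub_of_eq_on)

variable {d : ℕ}

/-- the `ℓ¹` distance -/
noncomputable def nn (a x : V d) : ℝ := ∑ i, |((x i - a i : ℤ) : ℝ)|

/-- the weight -/
noncomputable def wt (ρ : ℝ) (a x : V d) : ℝ := Real.exp (-(ρ * nn a x))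

lemma nn_self (a : V d) : nn a a = 0 := by simp [nn]

lemma nn_nonneg (a x : V d) : 0 ≤ nn a x := Finset.sum_nonneg fun _ _ => abs_nonneg _

lemma nn_step (a x : V d) (i : Fin d) (s : ℤ) (hs : |s| = 1) :
    |nn a (x + Pi.single i s) - nn a x| ≤ 1 := by
  unfold nn
  rw [← Finset.sum_sub_distrib, Finset.sum_eq_single i]
  · refine (abs_abs_sub_abs_le_abs_sub _ _).trans ?_
    rw [← Int.cast_sub]
    have : (x + (Pi.single i s : V d)) i - a i - (x i - a i) = s := by
      simp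
    rw [this, ← Int.cast_abs, hs]; norm_num
  · intro j _ hj
    have : (x + (Pi.single i s : V d)) j = x j := by simp [Pi.single_eq_of_ne hj]
    rw [this, sub_self]
  · intro h; exact absurd (Finset.mem_univ i) h

lemma wt_pos (ρ : ℝ) (a x : V d) : 0 < wt ρ a x := Real.exp_pos _

lemma wt_step {ρ : ℝ} (hρ : 0 ≤ ρ) (a x : V d) (i : Fin d) (s : ℤ) (hs : |s| = 1) :
    |wt ρ a (x + Pi.single i s) - wt ρ a x| ≤ (Real.exp ρ - 1) * wt ρ a (x + Pi.single i s) := by
  have h := nn_step a x i s hs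
  set y := x + Pi.single i s
  have h' := abs_le.1 h
  have h1 : wt ρ a x ≤ Real.exp ρ * wt ρ a y := by
    unfold wt; rw [← Real.exp_add]; apply Real.exp_le_exp.2; nlinarith
  have h2 : wt ρ a y ≤ Real.exp ρ * wt ρ a x := by
    unfold wt; rw [← Real.exp_add]; apply Real.exp_le_exp.2; nlinarith
  have hr : 1 ≤ Real.exp ρ := Real.one_le_exp hρ
  have p1 := wt_pos ρ a x
  have p2 := wt_pos ρ a y
  set r := Real.exp ρ
  rw [abs_le]
  constructor
  · linarith
  · have h3 : 0 ≤ r * ((r - 2) * wt ρ a y + wt ρ a x) := by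
      have : r * ((r - 2) * wt ρ a y + wt ρ a x) =
        (r - 1) ^ 2 * wt ρ a y + (r * wt ρ a x - wt ρ a y) := by ring
      rw [this]
      have : 0 ≤ (r - 1) ^ 2 * wt ρ a y := by positivity
      linarith
    have h4 : 0 ≤ (r - 2) * wt ρ a y + wt ρ a x := nonneg_of_mul_nonneg_right h3 (by linarith)
    linarith

lemma sum_shift_le {D : Finset (V d)} {F : V d → ℝ} (hF : ∀ x, 0 ≤ F x) (h0 : ∀ x ∉ D, F x = 0)
    (c : V d) : ∑ x ∈ D, F (x + c) ≤ ∑ x ∈ D, F x := by
  classical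
  have e1 : ∑ x ∈ D, F (x + c) = ∑ y ∈ D.map (Equiv.addRight c).toEmbedding, F y := by
    rw [Finset.sum_map]; rfl
  rw [e1]
  have e2 : ∑ y ∈ D.map (Equiv.addRight c).toEmbedding, F y =
      ∑ y ∈ (D.map (Equiv.addRight c).toEmbedding) ∩ D, F y := by
    symm
    apply Finset.sum_subset Finset.inter_subset_left
    intro x hx hx'
    apply h0
    intro hD
    exact hx' (Finset.mem_inter.2 ⟨hx, hD⟩)
  rw [e2]
  exact Finset.sum_le_sum_of_subset_of_nonneg Finset.inter_subset_right fun x _ _ => hF x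

lemma sq_nbr_le (a b : Fin d → ℝ) :
    (∑ i, (a i + b i)) ^ 2 ≤ 2 * d * ∑ i, (a i ^ 2 + b i ^ 2) := by
  have h1 := sq_sum_le_card_mul_sum_sq (s := (Finset.univ : Finset (Fin d))) (f := fun i => a i + b i)
  rw [Finset.card_univ, Fintype.card_fin] at h1
  refine h1.trans ?_
  have h2 : ∑ i, (a i + b i) ^ 2 ≤ ∑ i, 2 * (a i ^ 2 + b i ^ 2) :=
    Finset.sum_le_sum fun i _ => by nlinarith [sq_nonneg (a i - b i)]
  rw [← Finset.mul_sum] at h2
  have hd : (0 : ℝ) ≤ d := Nat.cast_nonneg d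
  nlinarith

lemma good_of_NR {ω : V d → Bool} {E τ ρ : ℝ} (hτ : 0 < τ) (hρ : 0 ≤ ρ)
    (hρτ : 2 * d * (Real.exp ρ - 1) ≤ τ / 2) {a : V d} {L : ℕ} (hNR : NR ω E (Q a L) τ) :
    Good ω E L (4 * d * τ⁻¹ * (2 * L + 1) ^ d * Real.exp (-(ρ * L))) a := by
  classical
  intro ε u S hu hS
  have hS0 : 0 ≤ S := (norm_nonneg _).trans (hS a (self_mem_Q a _))
  set D := Q a L with hD
  set z : ℂ := (E : ℂ) + ε * I with hz
  set v : V d → ℂ := fun x => if x ∈ D then u x else 0 with hv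
  have hv0 : ∀ x ∉ D, v x = 0 := fun x hx => by simp [hv, hx]
  have hv1 : ∀ x ∈ D, v x = u x := fun x hx => by simp [hv, hx]
  set w : V d → ℝ := wt ρ a with hw
  set g : V d → ℂ := fun x => (w x : ℂ) * v x with hg
  have hg0 : ∀ x ∉ D, g x = 0 := fun x hx => by simp [hg, hv0 x hx]
  set G : ℝ := ∑ x ∈ D, ‖g x‖ ^ 2 with hG
  set b : ℝ := Real.exp (-(ρ * L)) * (2 * d * S) with hb
  set q : ℝ := Real.exp ρ - 1 with hq
  have hq0 : 0 ≤ q := by have := Real.one_le_exp hρ; linarith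
  -- the boundary term
  have hwe : ∀ x ∈ D, ‖(w x : ℂ) * (hop ω v x - hop ω u x)‖ ≤ b := by
    intro x hx
    rw [norm_mul, Complex.norm_real, Real.norm_eq_abs, abs_of_pos (wt_pos ρ a x)]
    by_cases hc : ∀ i, |x i - a i| + 1 ≤ (L : ℤ)
    · have h0 : ‖hop ω v x - hop ω u x‖ ≤ 2 * d * 0 := by
        refine hop_sub_of_eq_on (hv1 x hx) ?_
        intro y hy
        have hyD : y ∈ D := by
          rw [hD, mem_Q]; intro i
          have h1 := (mem_Q.1 hy) i
          have h2 := hc i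
          push_cast at h1
          have h3 : |y i - a i| ≤ |y i - x i| + |x i - a i| := by
            have : y i - a i = (y i - x i) + (x i - a i) := by ring
            rw [this]; exact abs_add_le _ _
          omega
        rw [hv1 y hyD, sub_self, norm_zero]
      rw [mul_zero] at h0
      have h1 : ‖hop ω v x - hop ω u x‖ = 0 := le_antisymm h0 (norm_nonneg _)
      rw [h1, mul_zero]; positivity
    · push Not at hc
      obtain ⟨i, hi⟩ := hc
      have hi' : (L : ℤ) ≤ |x i - a i| := by omega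
      have h1 : (L : ℝ) ≤ nn a x := by
        have h2 : |((x i - a i : ℤ) : ℝ)| ≤ nn a x :=
          Finset.single_le_sum (f := fun i => |((x i - a i : ℤ) : ℝ)|) (fun _ _ => abs_nonneg _)
            (Finset.mem_univ i)
        refine le_trans ?_ h2
        rw [← Int.cast_abs]
        exact_mod_cast hi'
      have h2 : w x ≤ Real.exp (-(ρ * L)) := by
        simp only [hw, wt]
        apply Real.exp_le_exp.2
        nlinarith
      have h3 : ‖hop ω v x - hop ω u x‖ ≤ 2 * d * S := by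
        refine hop_sub_of_eq_on (hv1 x hx) ?_
        intro y hy
        by_cases hyD : y ∈ D
        · rw [hv1 y hyD, sub_self, norm_zero]; exact hS0
        · rw [hv0 y hyD, sub_zero]
          exact hS y (Q_trans hx hy)
      exact mul_le_mul h2 h3 (norm_nonneg _) (Real.exp_pos _).le
  -- the commutator
  have hr : ∀ x, ‖hop ω g x - (w x : ℂ) * hop ω v x‖ ≤
      q * ∑ i : Fin d, (‖g (x + ee i)‖ + ‖g (x - ee i)‖) := by
    intro x
    have e1 : hop ω g x - (w x : ℂ) * hop ω v x =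
        -∑ i : Fin d, (((w (x + ee i) - w x : ℝ) : ℂ) * v (x + ee i)
          + ((w (x - ee i) - w x : ℝ) : ℂ) * v (x - ee i)) := by
      unfold hop
      simp only [hg, Finset.sum_add_distrib, Finset.sum_sub_distrib, sub_mul, mul_add, mul_sub,
        Finset.mul_sum, Complex.ofReal_sub, neg_add_rev, neg_sub, mul_neg, Finset.sum_const,
        Finset.card_univ, Fintype.card_fin, nsmul_eq_mul, neg_add]
      ring
    rw [e1, norm_neg, Finset.mul_sum]
    refine (norm_sum_le _ _).trans (Finset.sum_le_sum fun i _ => ?_)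
    refine (norm_add_le _ _).trans ?_
    rw [norm_mul, norm_mul, Complex.norm_real, Complex.norm_real, Real.norm_eq_abs,
      Real.norm_eq_abs, mul_add]
    have e2 : x - ee i = x + Pi.single i (-1) := by
      rw [Pi.single_neg]; exact sub_eq_add_neg _ _
    refine add_le_add ?_ ?_
    · have h1 := wt_step hρ a x i 1 (by norm_num)
      simp only [hg, norm_mul, Complex.norm_real, Real.norm_eq_abs, abs_of_pos (wt_pos ρ a _)]
      calc |w (x + ee i) - w x| * ‖v (x + ee i)‖ ≤ (q * w (x + ee i)) * ‖v (x + ee i)‖ := by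
            apply mul_le_mul_of_nonneg_right h1 (norm_nonneg _)
        _ = q * (|w (x + ee i)| * ‖v (x + ee i)‖) := by
            rw [abs_of_pos (wt_pos ρ a _)]; ring
    · have h1 := wt_step hρ a x i (-1) (by norm_num)
      rw [← e2] at h1
      simp only [hg, norm_mul, Complex.norm_real, Real.norm_eq_abs, abs_of_pos (wt_pos ρ a _)]
      calc |w (x - ee i) - w x| * ‖v (x - ee i)‖ ≤ (q * w (x - ee i)) * ‖v (x - ee i)‖ := by
            apply mul_le_mul_of_nonneg_right h1 (norm_nonneg _)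
        _ = q * (|w (x - ee i)| * ‖v (x - ee i)‖) := by
            rw [abs_of_pos (wt_pos ρ a _)]; ring
  have h1 := NR_complex hNR ε hg0
  have h2 : ∀ x ∈ D, ‖hop ω g x - ((E : ℂ) + ε * I) * g x‖ ^ 2 ≤
      2 * b ^ 2 + 2 * q ^ 2 * (2 * d * ∑ i : Fin d, (‖g (x + ee i)‖ ^ 2 + ‖g (x - ee i)‖ ^ 2)) := by
    intro x hx
    have e1 : hop ω g x - ((E : ℂ) + ε * I) * g x = (w x : ℂ) * (hop ω v x - hop ω u x)
        + (hop ω g x - (w x : ℂ) * hop ω v x) := by
      have : hop ω u x = z * v x := by rw [hu x hx, hv1 x hx]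
      rw [this]; simp only [hg, hz]; ring
    rw [e1]
    have t1 := norm_add_le ((w x : ℂ) * (hop ω v x - hop ω u x)) (hop ω g x - (w x : ℂ) * hop ω v x)
    have t2 := hwe x hx
    have t3 := hr x
    have t4 := sq_nbr_le (fun i => ‖g (x + ee i)‖) (fun i => ‖g (x - ee i)‖)
    set s := ∑ i : Fin d, (‖g (x + ee i)‖ + ‖g (x - ee i)‖)
    set n1 := ‖(w x : ℂ) * (hop ω v x - hop ω u x)‖
    set n2 := ‖hop ω g x - (w x : ℂ) * hop ω v x‖
    have hn1 : 0 ≤ n1 := norm_nonneg _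
    have hn2 : 0 ≤ n2 := norm_nonneg _
    calc _ ≤ (n1 + n2) ^ 2 := pow_le_pow_left₀ (norm_nonneg _) t1 2
      _ ≤ 2 * n1 ^ 2 + 2 * n2 ^ 2 := by nlinarith [sq_nonneg (n1 - n2)]
      _ ≤ 2 * b ^ 2 + 2 * (q * s) ^ 2 := by gcongr
      _ = 2 * b ^ 2 + 2 * q ^ 2 * s ^ 2 := by ring
      _ ≤ _ := by gcongr
  have hGnn : ∀ x, 0 ≤ ‖g x‖ ^ 2 := fun x => by positivity
  have hG0 : ∀ x ∉ D, ‖g x‖ ^ 2 = 0 := fun x hx => by rw [hg0 x hx]; simp
  have h3 : ∑ x ∈ D, ∑ i : Fin d, (‖g (x + ee i)‖ ^ 2 + ‖g (x - ee i)‖ ^ 2) ≤ 2 * d * G := by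
    rw [Finset.sum_comm]
    calc ∑ i : Fin d, ∑ x ∈ D, (‖g (x + ee i)‖ ^ 2 + ‖g (x - ee i)‖ ^ 2)
        ≤ ∑ i : Fin d, 2 * G := by
          refine Finset.sum_le_sum fun i _ => ?_
          rw [Finset.sum_add_distrib]
          have s1 := sum_shift_le hGnn hG0 (ee i)
          have s2 := sum_shift_le hGnn hG0 (-ee i)
          simp only [← sub_eq_add_neg] at s2
          linarith
      _ = 2 * d * G := by
          rw [Finset.sum_const, Finset.card_univ, Fintype.card_fin, nsmul_eq_mul]; ring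
  have hcard : ∑ x ∈ D, (2 * b ^ 2) = (D.card : ℝ) * (2 * b ^ 2) := by
    rw [Finset.sum_const, nsmul_eq_mul]
  have h4 : τ ^ 2 * G ≤ (D.card : ℝ) * (2 * b ^ 2) + 2 * q ^ 2 * (2 * d * (2 * d * G)) := by
    refine h1.trans ((Finset.sum_le_sum h2).trans ?_)
    rw [Finset.sum_add_distrib, hcard, ← Finset.mul_sum, ← Finset.mul_sum]
    gcongr
  have hGp : 0 ≤ G := Finset.sum_nonneg fun x _ => hGnn x
  have h5 : 2 * q ^ 2 * (2 * d * (2 * d * G)) ≤ τ ^ 2 / 2 * G := by
    have : (2 * d * q) ^ 2 ≤ (τ / 2) ^ 2 := pow_le_pow_left₀ (by positivity) hρτ 2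
    calc 2 * q ^ 2 * (2 * d * (2 * d * G)) = 2 * (2 * d * q) ^ 2 * G := by ring
      _ ≤ 2 * (τ / 2) ^ 2 * G := by gcongr
      _ = τ ^ 2 / 2 * G := by ring
  have h6 : τ ^ 2 * G ≤ 4 * (D.card : ℝ) * b ^ 2 := by linarith
  have h7 : ‖u a‖ ^ 2 ≤ G := by
    have ha : a ∈ D := self_mem_Q a L
    have e : ‖g a‖ = ‖u a‖ := by
      simp only [hg, norm_mul, Complex.norm_real, hv1 a ha, hw, wt, nn_self]
      simp
    rw [← e]
    exact Finset.single_le_sum (f := fun x => ‖g x‖ ^ 2) (fun x _ => hGnn x) ha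
  have hc1 : (1 : ℝ) ≤ D.card := by
    have : 0 < D.card := Finset.card_pos.2 ⟨a, self_mem_Q a L⟩
    exact_mod_cast this
  have h8 : (τ * ‖u a‖) ^ 2 ≤ (2 * D.card * b) ^ 2 := by
    calc (τ * ‖u a‖) ^ 2 = τ ^ 2 * ‖u a‖ ^ 2 := by ring
      _ ≤ τ ^ 2 * G := by gcongr
      _ ≤ 4 * (D.card : ℝ) * b ^ 2 := h6
      _ ≤ 4 * ((D.card : ℝ) * D.card) * b ^ 2 := by
          gcongr; exact le_mul_of_one_le_left (by positivity) hc1
      _ = _ := by ring
  have h9 := abs_le_of_sq_le_sq h8 (by positivity)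
  rw [abs_of_nonneg (by positivity)] at h9
  have hcc : (D.card : ℝ) = (2 * L + 1) ^ d := by rw [hD, card_Q]; push_cast; ring
  rw [hcc] at h9
  have h10 : ‖u a‖ ≤ (2 * (2 * L + 1) ^ d * b) / τ := by
    rw [le_div_iff₀ hτ]; linarith
  refine h10.trans (le_of_eq ?_)
  rw [hb, div_eq_mul_inv]; ring

end Pool.Agent.H39.R1
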