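import Pool.Agent.H39.R1.Poin

set_option autoImplicit false

/-! Cubes with many barriers: the lower bound of the quadratic form. -/

namespace Pool.Agent.H39.R1

open Finset
open Pool.Agent.H12R2.And (V ee Q mem_Q card_Q Q_mono Q_trans Q_symm self_mem_Q sum_Q_shift mem_Q_shift
  NR Good)

variable {d : ℕ}

/-- the squared differences along the edges of the cube `Q c p` -/
noncomputable def GQ (c : V d) (p : ℕ) (h : V d → ℝ) : ℝ :=
  ∑ x ∈ Q c p, ∑ i, (if x + ee i ∈ Q c p then (h (x + ee i) - h x) ^ 2 else 0)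

lemma poincare (c : V d) (p : ℕ) (h : V d → ℝ) :
    ∑ x ∈ Q c p, ∑ y ∈ Q c p, (h x - h y) ^ 2 ≤ d * (2 * p + 1) ^ (d + 2) * GQ c p h := by
  have h0 := poincare0 (d := d) p (fun x => h (x + c))
  rw [CC_eq] at h0
  rw [sum_Q_shift c p (fun x => ∑ y ∈ Q c p, (h x - h y) ^ 2)]
  have e1 : ∀ x, ∑ y ∈ Q c p, (h (x + c) - h y) ^ 2 = ∑ y ∈ Q 0 p, (h (x + c) - h (y + c)) ^ 2 :=
    fun x => sum_Q_shift c p (fun y => (h (x + c) - h y) ^ 2)
  simp only [e1]
  refine h0.trans (le_of_eq ?_)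
  congr 1
  unfold GQ
  rw [sum_Q_shift c p]
  refine Finset.sum_congr rfl fun x _ => Finset.sum_congr rfl fun i _ => ?_
  unfold Gk
  have e2 : x + c + ee i = x + ee i + c := by abel
  rw [e2]
  have e3 : x + ee i ∈ CC d p ↔ x + ee i + c ∈ Q c p := by
    rw [CC_eq]; exact mem_Q_shift
  by_cases hx : x + ee i ∈ CC d p
  · rw [if_pos hx, if_pos (e3.1 hx)]
  · rw [if_neg hx, if_neg (fun hc => hx (e3.2 hc))]

lemma GQ_nonneg (c : V d) (p : ℕ) (h : V d → ℝ) : 0 ≤ GQ c p h := by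
  apply Finset.sum_nonneg; intro x _
  apply Finset.sum_nonneg; intro i _
  split_ifs <;> positivity

/-- a cube with many barriers -/
def Many (b : Bool) (p : ℕ) (ω : V d → Bool) (c : V d) : Prop :=
  (Q c p).card ≤ 16 * ((Q c p).filter fun x => ω x = b).card

lemma local_bound (hd : 1 ≤ d) {b : Bool} {p : ℕ} {ω : V d → Bool} {c : V d} (hM : Many b p ω c)
    (h : V d → ℝ) :
    ∑ x ∈ Q c p, h x ^ 2 ≤
      32 * d * (2 * p + 1) ^ 2 * (∑ x ∈ Q c p with ω x = b, h x ^ 2 + GQ c p h) := by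
  set n : ℝ := ((Q c p).card : ℝ) with hn
  set B := (Q c p).filter fun x => ω x = b with hB
  have hd' : (1 : ℝ) ≤ d := by exact_mod_cast hd
  have hn' : n = (2 * p + 1) ^ d := by rw [hn, card_Q]; push_cast; ring
  have hn0 : 0 < n := by rw [hn']; positivity
  have hM' : n ≤ 16 * (B.card : ℝ) := by
    unfold Many at hM
    rw [hn]; exact_mod_cast hM
  have hp := poincare c p h
  have hG := GQ_nonneg c p h
  set G := GQ c p h
  set S := ∑ x ∈ Q c p, h x ^ 2 with hS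
  have hS0 : 0 ≤ S := Finset.sum_nonneg fun _ _ => by positivity
  set SB := ∑ x ∈ B, h x ^ 2 with hSB
  have hSB0 : 0 ≤ SB := Finset.sum_nonneg fun _ _ => by positivity
  have h1 : (B.card : ℝ) * S ≤ 2 * n * SB + 2 * ∑ x ∈ Q c p, ∑ y ∈ Q c p, (h x - h y) ^ 2 := by
    have e1 : (B.card : ℝ) * S = ∑ x ∈ Q c p, ∑ y ∈ B, h x ^ 2 := by
      simp only [Finset.sum_const, nsmul_eq_mul]
      rw [Finset.mul_sum]
    have e2 : 2 * n * SB = ∑ x ∈ Q c p, ∑ y ∈ B, 2 * h y ^ 2 := by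
      rw [Finset.sum_const, nsmul_eq_mul, ← Finset.mul_sum]; ring
    rw [e1, e2, Finset.mul_sum, ← Finset.sum_add_distrib]
    refine Finset.sum_le_sum fun x _ => ?_
    calc ∑ y ∈ B, h x ^ 2 ≤ ∑ y ∈ B, (2 * h y ^ 2 + 2 * (h x - h y) ^ 2) := by
          refine Finset.sum_le_sum fun y _ => ?_
          nlinarith [sq_nonneg (h x - 2 * h y)]
      _ = ∑ y ∈ B, 2 * h y ^ 2 + 2 * ∑ y ∈ B, (h x - h y) ^ 2 := by
          rw [Finset.sum_add_distrib, Finset.mul_sum]
      _ ≤ _ := by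
          have : ∑ y ∈ B, (h x - h y) ^ 2 ≤ ∑ y ∈ Q c p, (h x - h y) ^ 2 :=
            Finset.sum_le_sum_of_subset_of_nonneg (Finset.filter_subset _ _)
              fun _ _ _ => by positivity
          linarith
  have h2 : n * S ≤ n * (32 * SB + 32 * d * (2 * p + 1) ^ 2 * G) := by
    calc n * S ≤ 16 * (B.card : ℝ) * S := mul_le_mul_of_nonneg_right hM' hS0
      _ = 16 * ((B.card : ℝ) * S) := by ring
      _ ≤ 16 * (2 * n * SB + 2 * (d * (2 * p + 1) ^ (d + 2) * G)) := by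
          have := h1.trans (add_le_add le_rfl (mul_le_mul_of_nonneg_left hp (by norm_num)))
          linarith
      _ = _ := by rw [hn', pow_add]; ring
  have h3 := le_of_mul_le_mul_left h2 hn0
  refine h3.trans ?_
  have h4 : (1 : ℝ) ≤ d * (2 * p + 1) ^ 2 := by
    have h5 : (1 : ℝ) ≤ (2 * p + 1) ^ 2 := one_le_pow₀ (by
      have : (0 : ℝ) ≤ p := Nat.cast_nonneg p
      linarith)
    nlinarith
  nlinarith

/-- centres of the small cubes -/
def ctr (a : V d) (p : ℕ) (z : V d) : V d := fun i => a i + (2 * p + 1) * z i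

lemma cell_iff {p : ℕ} {t z : ℤ} : (t + p) / (2 * p + 1) = z ↔ |t - (2 * p + 1) * z| ≤ p := by
  have hm : (0 : ℤ) < 2 * p + 1 := by positivity
  constructor
  · intro h
    have h1 := Int.mul_ediv_add_emod (t + p) (2 * p + 1)
    have h2 := Int.emod_nonneg (t + p) hm.ne'
    have h3 := Int.emod_lt_of_pos (t + p) hm
    rw [h] at h1
    rw [abs_le]
    constructor <;> linarith
  · intro h
    rw [abs_le] at h
    apply le_antisymm
    · apply Int.lt_add_one_iff.1
      rw [Int.ediv_lt_iff_lt_mul hm]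
      nlinarith [h.2]
    · rw [Int.le_ediv_iff_mul_le hm]
      nlinarith [h.1]

lemma sum_cells (a : V d) (p q : ℕ) (F : V d → ℝ) :
    ∑ x ∈ Q a (p + q * (2 * p + 1)), F x = ∑ z ∈ Q (0 : V d) q, ∑ x ∈ Q (ctr a p z) p, F x := by
  classical
  set g : V d → V d := fun x i => (x i - a i + p) / (2 * p + 1) with hg
  have hm : (0 : ℤ) < 2 * p + 1 := by positivity
  have hmaps : ∀ x ∈ Q a (p + q * (2 * p + 1)), g x ∈ Q (0 : V d) q := by
    intro x hx
    rw [mem_Q] at hx ⊢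
    intro i
    have h1 := abs_le.1 (hx i)
    push_cast at h1
    simp only [Pi.zero_apply, sub_zero, hg]
    rw [abs_le]
    constructor
    · rw [Int.le_ediv_iff_mul_le hm]; linarith [h1.1]
    · apply Int.lt_add_one_iff.1
      rw [Int.ediv_lt_iff_lt_mul hm]; linarith [h1.2]
  rw [← Finset.sum_fiberwise_of_maps_to hmaps]
  refine Finset.sum_congr rfl fun z hz => ?_
  refine Finset.sum_congr ?_ fun _ _ => rfl
  ext x
  rw [Finset.mem_filter, mem_Q, mem_Q]
  have key : g x = z ↔ ∀ i, |x i - ctr a p z i| ≤ p := by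
    rw [funext_iff]
    refine forall_congr' fun i => ?_
    simp only [hg, ctr]
    rw [cell_iff, sub_sub]
  constructor
  · rintro ⟨_, h⟩; exact key.1 h
  · intro h
    refine ⟨fun i => ?_, key.2 h⟩
    have h1 := abs_le.1 (h i)
    simp only [ctr] at h1
    have h2 := abs_le.1 ((mem_Q.1 hz) i)
    simp only [Pi.zero_apply, sub_zero] at h2
    push_cast
    rw [abs_le]
    constructor
    · nlinarith [h1.1, h2.1]
    · nlinarith [h1.2, h2.2]

lemma cell_subset {a z : V d} {p q : ℕ} (hz : z ∈ Q (0 : V d) q) :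
    Q (ctr a p z) p ⊆ Q a (p + q * (2 * p + 1)) := by
  intro x hx
  rw [mem_Q] at hx ⊢
  intro i
  have h1 := abs_le.1 (hx i)
  simp only [ctr] at h1
  have h2 := abs_le.1 ((mem_Q.1 hz) i)
  simp only [Pi.zero_apply, sub_zero] at h2
  push_cast
  rw [abs_le]
  constructor
  · nlinarith [h1.1, h2.1]
  · nlinarith [h1.2, h2.2]

/-- the initial event -/
def JJ (b : Bool) (p q : ℕ) (ω : V d → Bool) (a : V d) : Prop :=
  ∀ z ∈ Q (0 : V d) q, Many b p ω (ctr a p z)

lemma global_bound (hd : 1 ≤ d) {b : Bool} {p q : ℕ} {ω : V d → Bool} {a : V d}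
    (hJ : JJ b p q ω a) {h : V d → ℝ} (h0 : ∀ x ∉ Q a (p + q * (2 * p + 1)), h x = 0) :
    2 * (64 * d * (2 * p + 1) ^ 2 : ℝ)⁻¹ * ∑ x ∈ Q a (p + q * (2 * p + 1)), h x ^ 2 ≤
      PF (Q a (p + q * (2 * p + 1))) h
        + 2 * ∑ x ∈ Q a (p + q * (2 * p + 1)) with ω x = b, h x ^ 2 := by
  set D := Q a (p + q * (2 * p + 1)) with hD
  have hd' : (1 : ℝ) ≤ d := by exact_mod_cast hd
  have h1 := grad_le_PF (D := D) h0
  set M : ℝ := 32 * d * (2 * p + 1) ^ 2 with hM
  have hM0 : 0 < M := by positivity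
  have h2 : ∑ x ∈ D, h x ^ 2 ≤ M * (∑ x ∈ D with ω x = b, h x ^ 2 + PF D h) := by
    rw [hD, sum_cells a p q (fun x => h x ^ 2)]
    calc ∑ z ∈ Q (0 : V d) q, ∑ x ∈ Q (ctr a p z) p, h x ^ 2
        ≤ ∑ z ∈ Q (0 : V d) q, M * (∑ x ∈ Q (ctr a p z) p with ω x = b, h x ^ 2
            + GQ (ctr a p z) p h) := Finset.sum_le_sum fun z hz => local_bound hd (hJ z hz) h
      _ = M * (∑ z ∈ Q (0 : V d) q, ∑ x ∈ Q (ctr a p z) p with ω x = b, h x ^ 2
            + ∑ z ∈ Q (0 : V d) q, GQ (ctr a p z) p h) := by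
          rw [← Finset.mul_sum, Finset.sum_add_distrib]
      _ ≤ M * (∑ x ∈ D with ω x = b, h x ^ 2 + PF D h) := by
          gcongr
          · apply le_of_eq
            rw [Finset.sum_filter, hD, sum_cells a p q (fun x => if ω x = b then h x ^ 2 else 0)]
            refine Finset.sum_congr rfl fun z _ => ?_
            rw [Finset.sum_filter]
          · refine le_trans ?_ h1
            rw [hD, sum_cells a p q (fun x => ∑ i : Fin d, (h (x + ee i) - h x) ^ 2)]
            refine Finset.sum_le_sum fun z _ => ?_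
            unfold GQ
            refine Finset.sum_le_sum fun x _ => Finset.sum_le_sum fun i _ => ?_
            split_ifs
            · exact le_rfl
            · positivity
  have hB0 : 0 ≤ ∑ x ∈ D with ω x = b, h x ^ 2 := Finset.sum_nonneg fun _ _ => by positivity
  have e : 2 * (64 * d * (2 * p + 1) ^ 2 : ℝ)⁻¹ = M⁻¹ := by
    rw [hM]
    have : (64 * d * (2 * p + 1) ^ 2 : ℝ) = 2 * (32 * d * (2 * p + 1) ^ 2) := by ring
    rw [this, mul_inv, ← mul_assoc, mul_inv_cancel₀ (by norm_num), one_mul]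
  rw [e, inv_mul_le_iff₀ hM0]
  refine h2.trans ?_
  apply mul_le_mul_of_nonneg_left _ hM0.le
  linarith

/-- the gap and the decay at the initial scale -/
lemma good_of_JJ (hd : 1 ≤ d) {b : Bool} {p q : ℕ} {ω : V d → Bool} {a : V d} {E ρ : ℝ}
    (hJ : JJ b p q ω a) (hE : Near d b (64 * d * (2 * p + 1) ^ 2 : ℝ)⁻¹ E) (hρ : 0 ≤ ρ)
    (hρτ : 2 * d * (Real.exp ρ - 1) ≤ (64 * d * (2 * p + 1) ^ 2 : ℝ)⁻¹ / 2) :
    Good ω E (p + q * (2 * p + 1))
      (4 * d * (64 * d * (2 * p + 1) ^ 2 : ℝ) * (2 * ((p + q * (2 * p + 1) : ℕ) : ℝ) + 1) ^ d *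
        Real.exp (-(ρ * ((p + q * (2 * p + 1) : ℕ) : ℝ)))) a := by
  have hd' : (1 : ℝ) ≤ d := by exact_mod_cast hd
  have hNR := NR_of_form (ω := ω) (b := b) (D := Q a (p + q * (2 * p + 1))) (by positivity) hE
    (fun h h0 => global_bound hd hJ h0)
  have := good_of_NR (by positivity) hρ hρτ hNR
  rwa [inv_inv] at this

end Pool.Agent.H39.R1
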