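import Pool.Agent.H39.R1.Vol

set_option autoImplicit false

/-! The decoupling estimate with arbitrary parameters. -/

namespace Pool.Agent.H39.R1

open Complex MeasureTheory Filter
open scoped ENNReal Topology InnerProductSpace
open Pool.Agent.H12R2.And (V ee Q mem_Q card_Q Q_mono Q_trans Q_symm NR PP Good IsH Rz gg hop
  sub_Rz norm_Rz_le hop_sub_of_eq_on NR_complex im_form_zero)

variable {d : ℕ}

lemma decouple {ω : V d → Bool} {H : lp (fun _ : V d => ℂ) 2 →L[ℂ] lp (fun _ : V d => ℂ) 2}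
    (hH : IsH ω H) {E : ℝ} {L R0 : ℕ} {τ κ ε w : ℝ} (hτ : 0 < τ) (hκ : 0 ≤ κ) (hε0 : 0 < ε)
    (hL : 1 ≤ L) (hR0 : R0 < L) (hw1 : w ≤ 1)
    (hw : (4 * (L : ℝ)) ^ d * (2 * d) ^ 2 * κ ^ 2 ≤ ε ^ 2 * w)
    (hNR : NR ω E (Q (0 : V d) (2 * L - 1)) τ)
    (hG : ∀ w : V d, w ∈ Q (0 : V d) (2 * L) → w ∉ Q (0 : V d) (2 * L - 1) → Good ω E L κ w)
    {φ : lp (fun _ : V d => ℂ) 2} (hφ : ∀ x ∉ Q (0 : V d) R0, φ x = 0) :
    (inner ℂ φ (Rz H ((E : ℂ) + (ε : ℂ) * I) φ)).im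
      ≤ (6 * ε * (τ ^ 2)⁻¹ + (2 * ε)⁻¹ * w) * ‖φ‖ ^ 2 := by
  classical
  have hL' : (1 : ℝ) ≤ L := by exact_mod_cast hL
  have hLp : (0 : ℝ) < L := by linarith
  have hsa := hH.isSelfAdjoint
  set z : ℂ := (E : ℂ) + (ε : ℂ) * I with hz
  have hzim : z.im = ε := by simp [hz]
  have hzim0 : z.im ≠ 0 := by rw [hzim]; exact hε0.ne'
  set u := Rz H z φ with hu
  have hsol : ∀ x, hop ω u x = z * u x + φ x := by
    intro x
    have h := sub_Rz hsa hzim0 φ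
    have h2 : (H u) x - z * u x = φ x := by
      conv_rhs => rw [← h]
      rfl
    rw [← hH]; linear_combination h2
  have hun : ‖u‖ ≤ ‖φ‖ / ε := by
    have h := norm_Rz_le hsa (z := z) (by rw [hzim]; exact hε0) φ
    rw [hzim] at h
    exact h
  set T : ℝ := κ * ‖u‖ with hT
  have hT0 : 0 ≤ T := by positivity
  have hshell : ∀ w : V d, w ∈ Q (0 : V d) (2 * L) → w ∉ Q (0 : V d) (2 * L - 1) → ‖u w‖ ≤ T := by
    intro w hw hw'
    refine hG w hw hw' ε u ‖u‖ ?_ ?_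
    · intro x hx
      rw [hsol x, hφ x, add_zero]
      intro hc
      apply hw'
      exact Q_mono (by omega) (Q_trans hc (Q_symm.1 hx))
    · intro x _
      exact lp.norm_apply_le_norm (by norm_num) u x
  set D := Q (0 : V d) (2 * L - 1) with hD
  set v : V d → ℂ := fun x => if x ∈ D then u x else 0 with hv
  have hv0 : ∀ x ∉ D, v x = 0 := fun x hx => by simp [hv, hx]
  have hv1 : ∀ x ∈ D, v x = u x := fun x hx => by simp [hv, hx]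
  set e : V d → ℂ := fun x => hop ω v x - hop ω u x with he
  have he1 : ∀ x ∈ D, ‖e x‖ ≤ 2 * d * T := by
    intro x hx
    refine hop_sub_of_eq_on (hv1 x hx) ?_
    intro y hy
    by_cases hyD : y ∈ D
    · rw [hv1 y hyD, sub_self, norm_zero]; exact hT0
    · rw [hv0 y hyD, sub_zero]
      exact hshell y (Q_mono (by omega) (Q_trans hx hy)) hyD
  have he2 : ∀ x ∈ D, hop ω v x - z * v x = φ x + e x := by
    intro x hx
    simp only [he]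
    rw [hsol x, hv1 x hx]; ring
  set A2 : ℝ := ∑ x ∈ D, ‖v x‖ ^ 2 with hA2
  set W : ℝ := D.card * (2 * d * T) ^ 2 with hW
  have hWe : ∑ x ∈ D, ‖e x‖ ^ 2 ≤ W := by
    calc ∑ x ∈ D, ‖e x‖ ^ 2 ≤ ∑ x ∈ D, (2 * d * T) ^ 2 := by
          apply Finset.sum_le_sum
          intro x hx
          exact pow_le_pow_left₀ (norm_nonneg _) (he1 x hx) 2
      _ = W := by rw [Finset.sum_const, nsmul_eq_mul]
  have hφ2 : ∑ x ∈ D, ‖φ x‖ ^ 2 ≤ ‖φ‖ ^ 2 := by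
    have h := lp.sum_rpow_le_norm_rpow (p := 2) (by norm_num) φ D
    simpa using h
  have hNR' := NR_complex hNR ε hv0
  have hA2W : τ ^ 2 * A2 ≤ 2 * ‖φ‖ ^ 2 + 2 * W := by
    refine hNR'.trans ?_
    calc ∑ x ∈ D, ‖hop ω v x - ((E : ℂ) + ε * I) * v x‖ ^ 2
        ≤ ∑ x ∈ D, (2 * ‖φ x‖ ^ 2 + 2 * ‖e x‖ ^ 2) := by
          apply Finset.sum_le_sum
          intro x hx
          rw [he2 x hx]
          have h1 := norm_add_le (φ x) (e x)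
          have h2 : 0 ≤ ‖φ x + e x‖ := norm_nonneg _
          nlinarith [sq_nonneg (‖φ x‖ - ‖e x‖)]
      _ = 2 * ∑ x ∈ D, ‖φ x‖ ^ 2 + 2 * ∑ x ∈ D, ‖e x‖ ^ 2 := by
          rw [Finset.sum_add_distrib, Finset.mul_sum, Finset.mul_sum]
      _ ≤ _ := by linarith
  -- bound for W
  have hWb : W ≤ w * ‖φ‖ ^ 2 := by
    have hc : (D.card : ℝ) ≤ (4 * L) ^ d := by
      rw [hD, card_Q]
      have : (2 * (2 * L - 1) + 1) ^ d ≤ (4 * L) ^ d := Nat.pow_le_pow_left (by omega) d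
      exact_mod_cast this
    have hu2 : ε ^ 2 * ‖u‖ ^ 2 ≤ ‖φ‖ ^ 2 := by
      rw [le_div_iff₀ hε0] at hun
      have := pow_le_pow_left₀ (by positivity) hun 2
      rw [mul_pow] at this
      linarith
    calc W ≤ (4 * L) ^ d * (2 * d * T) ^ 2 := by rw [hW]; gcongr
      _ = ((4 * (L : ℝ)) ^ d * (2 * d) ^ 2 * κ ^ 2) * ‖u‖ ^ 2 := by rw [hT]; ring
      _ ≤ (ε ^ 2 * w) * ‖u‖ ^ 2 := by gcongr
      _ = w * (ε ^ 2 * ‖u‖ ^ 2) := by ring
      _ ≤ w * ‖φ‖ ^ 2 := by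
          have hw0 : 0 ≤ w := by
            have h1 : 0 ≤ ε ^ 2 * w := le_trans (by positivity) hw
            exact nonneg_of_mul_nonneg_right h1 (by positivity)
          gcongr
  have hW0 : 0 ≤ W := by positivity
  have hW1 : W ≤ ‖φ‖ ^ 2 := by
    refine hWb.trans ?_
    have : 0 ≤ ‖φ‖ ^ 2 := by positivity
    nlinarith
  have hA2b : A2 ≤ 4 * (τ ^ 2)⁻¹ * ‖φ‖ ^ 2 := by
    have h1 : τ ^ 2 * A2 ≤ 4 * ‖φ‖ ^ 2 := by linarith
    have h2 : 0 < τ ^ 2 := by positivity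
    rw [show 4 * (τ ^ 2)⁻¹ * ‖φ‖ ^ 2 = (4 * ‖φ‖ ^ 2) / τ ^ 2 by rw [div_eq_mul_inv]; ring,
      le_div_iff₀ h2]
    linarith
  have hA20 : 0 ≤ A2 := by positivity
  -- the imaginary part
  have him : (inner ℂ φ u).im = ε * A2 + (∑ x ∈ D, (starRingEnd ℂ) (v x) * e x).im := by
    have h1 : inner ℂ φ u = ∑ x ∈ D, (starRingEnd ℂ) (φ x) * v x := by
      rw [lp.inner_eq_tsum, tsum_eq_sum (s := D)]
      · apply Finset.sum_congr rfl
        intro x hx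
        rw [hv1 x hx]
        simp [mul_comm]
      · intro x hx
        rw [hφ x (fun hc => hx (Q_mono (by omega) hc))]
        simp
    have h2 : (∑ x ∈ D, (starRingEnd ℂ) (φ x) * v x).im
        = - (∑ x ∈ D, (starRingEnd ℂ) (v x) * φ x).im := by
      rw [← Complex.conj_im, map_sum]
      congr 1
      apply Finset.sum_congr rfl
      intro x _
      rw [map_mul, Complex.conj_conj, mul_comm]
    have h3 : ∑ x ∈ D, (starRingEnd ℂ) (v x) * φ x = ∑ x ∈ D, (starRingEnd ℂ) (v x) * hop ω v x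
        - z * (A2 : ℂ) - ∑ x ∈ D, (starRingEnd ℂ) (v x) * e x := by
      rw [hA2]
      push_cast
      rw [Finset.mul_sum, ← Finset.sum_sub_distrib, ← Finset.sum_sub_distrib]
      apply Finset.sum_congr rfl
      intro x hx
      have h4 := he2 x hx
      have h5 : (starRingEnd ℂ) (v x) * v x = (‖v x‖ : ℂ) ^ 2 := Complex.conj_mul' _
      have h6 : φ x = hop ω v x - z * v x - e x := by rw [h4]; ring
      rw [h6, ← h5]; ring
    rw [h1, h2, h3, Complex.sub_im, Complex.sub_im, im_form_zero hv0]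
    have : (z * (A2 : ℂ)).im = ε * A2 := by
      rw [Complex.mul_im]; simp [hzim]
    rw [this]; ring
  have hcross : (∑ x ∈ D, (starRingEnd ℂ) (v x) * e x).im ≤ ε / 2 * A2 + (2 * ε)⁻¹ * W := by
    calc (∑ x ∈ D, (starRingEnd ℂ) (v x) * e x).im
        ≤ ‖∑ x ∈ D, (starRingEnd ℂ) (v x) * e x‖ := (le_abs_self _).trans (Complex.abs_im_le_norm _)
      _ ≤ ∑ x ∈ D, ‖(starRingEnd ℂ) (v x) * e x‖ := norm_sum_le _ _
      _ ≤ ∑ x ∈ D, (ε / 2 * ‖v x‖ ^ 2 + (2 * ε)⁻¹ * ‖e x‖ ^ 2) := by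
          apply Finset.sum_le_sum
          intro x _
          rw [norm_mul, Complex.norm_conj]
          have h1 : ε / 2 * ‖v x‖ ^ 2 + (2 * ε)⁻¹ * ‖e x‖ ^ 2 - ‖v x‖ * ‖e x‖
              = (2 * ε)⁻¹ * (ε * ‖v x‖ - ‖e x‖) ^ 2 := by
            field_simp; ring
          have h2 : 0 ≤ (2 * ε)⁻¹ * (ε * ‖v x‖ - ‖e x‖) ^ 2 := by positivity
          linarith
      _ = ε / 2 * A2 + (2 * ε)⁻¹ * ∑ x ∈ D, ‖e x‖ ^ 2 := by
          rw [Finset.sum_add_distrib, Finset.mul_sum, Finset.mul_sum]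
      _ ≤ _ := by gcongr
  rw [him]
  have f1 : ε * A2 ≤ 4 * ε * (τ ^ 2)⁻¹ * ‖φ‖ ^ 2 := by
    calc ε * A2 ≤ ε * (4 * (τ ^ 2)⁻¹ * ‖φ‖ ^ 2) := by gcongr
      _ = _ := by ring
  have f3 : (2 * ε)⁻¹ * W ≤ (2 * ε)⁻¹ * (w * ‖φ‖ ^ 2) := by gcongr
  have e1 : (6 * ε * (τ ^ 2)⁻¹ + (2 * ε)⁻¹ * w) * ‖φ‖ ^ 2 =
      4 * ε * (τ ^ 2)⁻¹ * ‖φ‖ ^ 2 + (4 * ε * (τ ^ 2)⁻¹ * ‖φ‖ ^ 2) / 2
        + (2 * ε)⁻¹ * (w * ‖φ‖ ^ 2) := by ring
  rw [e1]
  linarith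

end Pool.Agent.H39.R1
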