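import Pool.Agent.H39.R1.Dec

set_option autoImplicit false

/-! The engine: a good initial scale with decay `exp (-8 a0)` excludes absolutely continuous spectrum
outside a set of energies of measure `exp (-a0 / 2)`. -/

namespace Pool.Agent.H39.R1

open Finset Complex MeasureTheory ProbabilityTheory Filter
open scoped ENNReal Topology InnerProductSpace
open Pool.Agent.H12R2.And (V ee Q mem_Q card_Q Q_mono Q_trans Q_symm NR PP Good IsH Rz gg hop Dep
  singular_on fin_dense mutuallySingular_of_rnDeriv)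

variable {d : ℕ}

/-- exponents -/
noncomputable def ak (a0 : ℝ) (k : ℕ) : ℝ := (3 / 2) ^ k * a0

/-- resonance widths -/
noncomputable def tt (a0 : ℝ) (k : ℕ) : ℝ := Real.exp (-ak a0 k)

lemma ak_succ (a0 : ℝ) (k : ℕ) : ak a0 (k + 1) = 3 / 2 * ak a0 k := by
  unfold ak; rw [pow_succ]; ring

lemma ak_ge {a0 : ℝ} (ha : 0 ≤ a0) (k : ℕ) : a0 * (1 + k / 2) ≤ ak a0 k := by
  unfold ak
  have h := one_add_mul_le_pow (a := (1 / 2 : ℝ)) (by norm_num) k
  have h2 : (1 : ℝ) + 1 / 2 = 3 / 2 := by norm_num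
  rw [h2] at h
  have h3 : (1 : ℝ) + k / 2 ≤ (3 / 2) ^ k := by linarith
  nlinarith

lemma ak_pos {a0 : ℝ} (ha : 0 < a0) (k : ℕ) : 0 < ak a0 k := by unfold ak; positivity

lemma big_k {a0 : ℝ} (ha : 0 ≤ a0) {L0 : ℕ}
    (big1 : 6 * (2 * d) ^ 2 * (17 * (L0 : ℝ)) ^ (3 * d + 2) ≤ Real.exp (a0 / 4))
    (big1' : (10 : ℝ) ^ (3 * d + 2) ≤ Real.exp (a0 / 8)) (k : ℕ) :
    6 * (2 * d) ^ 2 * (17 * ((10 ^ k * L0 : ℕ) : ℝ)) ^ (3 * d + 2) ≤ Real.exp (ak a0 k / 4) := by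
  have h1 : ((10 : ℝ) ^ (3 * d + 2)) ^ k ≤ Real.exp (k * (a0 / 8)) := by
    rw [Real.exp_nat_mul]; exact pow_le_pow_left₀ (by positivity) big1' k
  have h2 : Real.exp (k * (a0 / 8)) * Real.exp (a0 / 4) ≤ Real.exp (ak a0 k / 4) := by
    rw [← Real.exp_add]
    apply Real.exp_le_exp.2
    have := ak_ge ha k
    linarith
  refine le_trans ?_ h2
  calc 6 * (2 * d) ^ 2 * (17 * ((10 ^ k * L0 : ℕ) : ℝ)) ^ (3 * d + 2)
      = ((10 : ℝ) ^ (3 * d + 2)) ^ k * (6 * (2 * d) ^ 2 * (17 * (L0 : ℝ)) ^ (3 * d + 2)) := by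
        push_cast
        rw [← pow_mul, mul_comm (3 * d + 2) k, pow_mul, mul_left_comm 17 ((10 : ℝ) ^ k) (L0 : ℝ),
          mul_pow ((10 : ℝ) ^ k)]
        ring
    _ ≤ _ := mul_le_mul h1 big1 (by positivity) (by positivity)

theorem volume_XX (hd : 2 ≤ d) {L0 : ℕ} (h1L : 1 ≤ L0) {a0 : ℝ} (ha : 4 ≤ a0)
    (big1 : 6 * (2 * d) ^ 2 * (17 * (L0 : ℝ)) ^ (3 * d + 2) ≤ Real.exp (a0 / 4))
    (big1' : (10 : ℝ) ^ (3 * d + 2) ≤ Real.exp (a0 / 8)) :
    volume (XX d (tt a0) L0)ᶜ ≤ ENNReal.ofReal (Real.exp (-(a0 / 2))) := by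
  refine volume_compl_XX (fun k => (Real.exp_pos _).le) h1L (Real.exp_pos _).le ?_
  intro k
  have hd' : (2 : ℝ) ≤ d := by exact_mod_cast hd
  have hb := big_k (by linarith) big1 big1' k
  set L : ℝ := ((10 ^ k * L0 : ℕ) : ℝ) with hL
  have hL1 : (1 : ℝ) ≤ L := by
    rw [hL]; exact_mod_cast Nat.one_le_iff_ne_zero.mpr (by positivity)
  have h1 : 6 * (17 * L) ^ d * L ^ (2 * d + 2) ≤ 6 * (2 * d) ^ 2 * (17 * L) ^ (3 * d + 2) := by
    have e1 : (17 * L) ^ (3 * d + 2) = (17 * L) ^ d * (17 * L) ^ (2 * d + 2) := by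
      rw [← pow_add]; congr 1; ring
    have e2 : L ^ (2 * d + 2) ≤ (17 * L) ^ (2 * d + 2) := by gcongr; linarith
    have e3 : (1 : ℝ) ≤ (2 * d) ^ 2 := one_le_pow₀ (by linarith)
    rw [e1]
    calc 6 * (17 * L) ^ d * L ^ (2 * d + 2) ≤ 6 * (17 * L) ^ d * (17 * L) ^ (2 * d + 2) := by gcongr
      _ = 6 * 1 * ((17 * L) ^ d * (17 * L) ^ (2 * d + 2)) := by ring
      _ ≤ _ := by gcongr
  have h2 : 6 * tt a0 k * (17 * L) ^ d * L ^ (2 * d + 2) ≤ Real.exp (-(3 / 4 * ak a0 k)) := by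
    calc 6 * tt a0 k * (17 * L) ^ d * L ^ (2 * d + 2)
        = tt a0 k * (6 * (17 * L) ^ d * L ^ (2 * d + 2)) := by ring
      _ ≤ tt a0 k * Real.exp (ak a0 k / 4) := by
          apply mul_le_mul_of_nonneg_left (h1.trans hb) (Real.exp_pos _).le
      _ = _ := by
          unfold tt
          rw [← Real.exp_add]; congr 1; ring
  refine h2.trans ?_
  have h3 : (1 / 2 : ℝ) ^ k / 2 = Real.exp (-((k + 1 : ℕ) * Real.log 2)) := by
    rw [Real.exp_neg, Real.exp_nat_mul, Real.exp_log (by norm_num), one_div, inv_pow, pow_succ,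
      mul_inv]
    ring
  have h4 : Real.exp (-(a0 / 2)) / 2 * (1 / 2) ^ k = Real.exp (-(a0 / 2)) * ((1 / 2) ^ k / 2) := by
    ring
  rw [h4, h3, ← Real.exp_add]
  apply Real.exp_le_exp.2
  have h5 := ak_ge (by linarith : (0 : ℝ) ≤ a0) k
  have h6 : Real.log 2 ≤ 1 := by have := Real.log_two_lt_d9; linarith
  have h7 : (0 : ℝ) ≤ k := Nat.cast_nonneg k
  push_cast
  have h8 : (k + 1) * Real.log 2 ≤ k + 1 := by nlinarith
  nlinarith

/-- The engine. -/
theorem engine (hd : 2 ≤ d) {L0 : ℕ} {J : (V d → Bool) → V d → Prop}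
    (hJ : ∀ a : V d, Dep (Q a L0) {ω | J ω a}) (h1L : 1 ≤ L0) {a0 : ℝ} (ha : 4 ≤ a0)
    (big1 : 6 * (2 * d) ^ 2 * (17 * (L0 : ℝ)) ^ (3 * d + 2) ≤ Real.exp (a0 / 4))
    (big1' : (10 : ℝ) ^ (3 * d + 2) ≤ Real.exp (a0 / 8))
    (big2 : 6 * 17 ^ (2 * d) * 10 ^ (2 * d + 1) ≤ L0)
    (hP : ∀ a : V d, (PP d).real {ω | ¬ J ω a} ≤ ((L0 : ℝ) ^ (2 * d + 1))⁻¹)
    {B : Set ℝ} (hB : MeasurableSet B) (hBb : B ⊆ Set.Ioc (-(4 * d + 2) : ℝ) (4 * d + 2))
    (hgood : ∀ E ∈ B, ∀ (ω : V d → Bool) (a : V d), J ω a →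
      Good ω E L0 (Real.exp (-(8 * a0))) a) :
    ∀ᵐ ω ∂(PP d), ∀ (H : lp (fun _ : V d => ℂ) 2 →L[ℂ] lp (fun _ : V d => ℂ) 2), IsH ω H →
      ∀ (ψ : lp (fun _ : V d => ℂ) 2) (μ : Measure ℝ), IsFiniteMeasure μ →
        (∀ z : ℂ, z.im ≠ 0 → (∫ x, ((x : ℂ) - z)⁻¹ ∂μ) = inner ℂ ψ (Rz H z ψ)) →
        (μ.restrict (B ∩ XX d (tt a0) L0)) ⟂ₘ volume := by
  have hd1 : 1 ≤ d := by omega
  have ha0 : 0 < a0 := by linarith
  set SB : Set ℝ := B ∩ XX d (tt a0) L0 with hSB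
  have hSBm : MeasurableSet SB := hB.inter (measurableSet_XX _ _)
  have hfin : volume SB ≠ ∞ :=
    ne_top_of_le_ne_top (by simp : volume (Set.Ioc (-(4 * d + 2) : ℝ) (4 * d + 2)) ≠ ∞)
      (measure_mono (Set.inter_subset_left.trans hBb))
  have hae := ae_ae_FF (d := d) (J := J) (τ := tt a0) (L0 := L0)
    hJ h1L big2 hP hSBm (Set.inter_subset_right) hfin
  filter_upwards [hae] with ω hω H hH ψ μ hμf hμ
  apply mutuallySingular_of_rnDeriv hSBm
  set N : ℝ := max (4 * d + 2) (2 * ‖H‖) with hN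
  have hd' : (1 : ℝ) ≤ d := by exact_mod_cast hd1
  have hN1 : 4 * d + 2 ≤ N := le_max_left _ _
  set ε : ℕ → ℝ := fun k => Real.exp (-(3 * ak a0 k)) with hε
  have hakp : ∀ k, 0 < ak a0 k := fun k => ak_pos ha0 k
  have hLk : ∀ k, 1 ≤ 10 ^ k * L0 := fun k => Nat.one_le_iff_ne_zero.mpr (by positivity)
  have hε0 : ∀ k, 0 < ε k := fun k => Real.exp_pos _
  have hε1 : ∀ k, ε k ≤ N := fun k => by
    have h1 : ε k ≤ 1 := Real.exp_le_one_iff.2 (by linarith [hakp k])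
    linarith
  have hakt : Tendsto (ak a0) atTop atTop := by
    refine tendsto_atTop_mono (fun k => ?_) (tendsto_natCast_atTop_atTop (R := ℝ))
    have := ak_ge ha0.le k
    have h7 : (0 : ℝ) ≤ k := Nat.cast_nonneg k
    nlinarith
  have htend : Tendsto (fun k : ℕ => Real.exp (-ak a0 k)) atTop (𝓝 0) :=
    Real.tendsto_exp_neg_atTop_nhds_zero.comp hakt
  have hεt : Tendsto ε atTop (𝓝 0) := by
    refine squeeze_zero (fun k => (hε0 k).le) (fun k => ?_) htend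
    apply Real.exp_le_exp.2
    linarith [hakp k]
  have hBN : B ⊆ Set.Ioc (-N) N := by
    intro E hE
    have := hBb hE
    exact ⟨by linarith [this.1], by linarith [this.2]⟩
  refine singular_on hH.isSelfAdjoint (N := N)
    (Set.inter_subset_left.trans hBN) (le_max_right _ _) hε0 hε1 hεt
    (fun ψ δ hδ => fin_dense ψ δ hδ) ?_ ψ hμ
  rintro φ ⟨R0, hφ⟩
  have hmem : ∀ᵐ E ∂(volume.restrict SB), E ∈ SB := ae_restrict_mem hSBm
  filter_upwards [hω, hmem] with E hE hES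
  have hbig := fun k => big_k (d := d) ha0.le big1 big1' k
  have hbk : ∀ k, (1 : ℝ) ≤ ((10 ^ k * L0 : ℕ) : ℝ) := fun k => by exact_mod_cast hLk k
  -- `2 d (17 L)^d ≤ exp (a_k)`
  have hb2 : ∀ k, 2 * d * (17 * ((10 ^ k * L0 : ℕ) : ℝ)) ^ d ≤ Real.exp (ak a0 k) := by
    intro k
    refine le_trans ?_ ((hbig k).trans (Real.exp_le_exp.2 (by linarith [hakp k])))
    have h1 := hbk k
    set L : ℝ := ((10 ^ k * L0 : ℕ) : ℝ)
    have e2 : (17 * L) ^ d ≤ (17 * L) ^ (3 * d + 2) := by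
      apply pow_le_pow_right₀ (by linarith) (by omega)
    have e3 : (2 * d : ℝ) ≤ 6 * (2 * d) ^ 2 := by nlinarith
    have e4 : (0 : ℝ) ≤ 2 * d := by positivity
    exact mul_le_mul e3 e2 (by positivity) (by positivity)
  have hb3 : ∀ k, (4 * ((10 ^ k * L0 : ℕ) : ℝ)) ^ d * (2 * d) ^ 2 ≤ Real.exp (ak a0 k) := by
    intro k
    refine le_trans ?_ ((hbig k).trans (Real.exp_le_exp.2 (by linarith [hakp k])))
    have h1 := hbk k
    set L : ℝ := ((10 ^ k * L0 : ℕ) : ℝ)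
    have e2 : (4 * L) ^ d ≤ (17 * L) ^ (3 * d + 2) := by
      calc (4 * L) ^ d ≤ (17 * L) ^ d := by gcongr; norm_num
        _ ≤ _ := pow_le_pow_right₀ (by linarith) (by omega)
    rw [mul_comm]
    have e3 : (2 * d : ℝ) ^ 2 ≤ 6 * (2 * d) ^ 2 := by
      have : (0 : ℝ) ≤ (2 * d) ^ 2 := by positivity
      linarith
    exact mul_le_mul e3 e2 (by positivity) (by positivity)
  -- the good cubes
  have hGG := fun k => good_of_GG (J := J) (τ := tt a0) (κ := fun k => Real.exp (-(8 * ak a0 k)))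
    (L0 := L0) (E := E) hd1 h1L (fun k => Real.exp_pos _)
    (fun k => Real.exp_le_one_iff.2 (by linarith [hakp k]))
    (fun k => (Real.exp_pos _).le) (by
      intro k
      have h1 : (tt a0 k)⁻¹ * (2 * d * (17 * ((10 ^ k * L0 : ℕ) : ℝ)) ^ d) *
          Real.exp (-(8 * ak a0 k)) ≤ Real.exp (-(6 * ak a0 k)) := by
        calc (tt a0 k)⁻¹ * (2 * d * (17 * ((10 ^ k * L0 : ℕ) : ℝ)) ^ d) * Real.exp (-(8 * ak a0 k))
            ≤ Real.exp (ak a0 k) * Real.exp (ak a0 k) * Real.exp (-(8 * ak a0 k)) := by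
              have e1 : (tt a0 k)⁻¹ = Real.exp (ak a0 k) := by
                unfold tt; rw [Real.exp_neg, inv_inv]
              rw [e1]
              gcongr
              exact hb2 k
          _ = _ := by rw [← Real.exp_add, ← Real.exp_add]; congr 1; ring
      have h2 : 0 ≤ (tt a0 k)⁻¹ * (2 * d * (17 * ((10 ^ k * L0 : ℕ) : ℝ)) ^ d) *
          Real.exp (-(8 * ak a0 k)) := by
        have : 0 < tt a0 k := Real.exp_pos _
        positivity
      calc _ ≤ (Real.exp (-(6 * ak a0 k))) ^ 2 := pow_le_pow_left₀ h2 h1 2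
        _ = Real.exp (-(8 * ak a0 (k + 1))) := by
            rw [← Real.exp_nat_mul, ak_succ]; congr 1; push_cast; ring)
    (by
      intro ω' a hJa
      have := hgood E hES.1 ω' a hJa
      have e : ak a0 0 = a0 := by simp [ak]
      simpa [e] using this) k ω
  have hev : ∀ᶠ k in atTop, gg H φ (ε k) E ≤
      ENNReal.ofReal (7 * Real.exp (-ak a0 k) * ‖φ‖ ^ 2) := by
    have hR : ∀ᶠ k : ℕ in atTop, R0 < 10 ^ k * L0 := by
      filter_upwards [eventually_gt_atTop R0] with k hk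
      calc R0 < k := hk
        _ ≤ 10 ^ k := (Nat.lt_pow_self (by norm_num)).le
        _ ≤ 10 ^ k * L0 := Nat.le_mul_of_pos_right _ h1L
    filter_upwards [hE, hR] with k hFF hRk
    apply ENNReal.ofReal_le_ofReal
    obtain ⟨hSh, hRR⟩ := hFF
    have hdec := decouple hH (E := E) (L := 10 ^ k * L0) (R0 := R0) (τ := tt a0 k)
      (κ := Real.exp (-(8 * ak a0 k))) (ε := ε k) (w := Real.exp (-(9 * ak a0 k)))
      (Real.exp_pos _) (Real.exp_pos _).le (hε0 k) (hLk k) hRk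
      (Real.exp_le_one_iff.2 (by linarith [hakp k])) ?_ ?_ ?_ hφ
    · refine hdec.trans ?_
      apply mul_le_mul_of_nonneg_right _ (by positivity)
      have e1 : 6 * ε k * (tt a0 k ^ 2)⁻¹ = 6 * Real.exp (-ak a0 k) := by
        have : (tt a0 k ^ 2)⁻¹ = Real.exp (2 * ak a0 k) := by
          unfold tt
          rw [← Real.exp_nat_mul, ← Real.exp_neg]; congr 1; push_cast; ring
        rw [this, mul_assoc]
        congr 1
        simp only [hε]
        rw [← Real.exp_add]; congr 1; ring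
      have e2 : (2 * ε k)⁻¹ * Real.exp (-(9 * ak a0 k)) = Real.exp (-(6 * ak a0 k)) / 2 := by
        simp only [hε]
        rw [mul_inv, ← Real.exp_neg, mul_assoc, ← Real.exp_add]
        rw [div_eq_inv_mul]; congr 2; ring
      rw [e1, e2]
      have e3 : Real.exp (-(6 * ak a0 k)) ≤ Real.exp (-ak a0 k) :=
        Real.exp_le_exp.2 (by linarith [hakp k])
      have e4 := Real.exp_pos (-ak a0 k)
      linarith
    · calc (4 * ((10 ^ k * L0 : ℕ) : ℝ)) ^ d * (2 * d) ^ 2 * Real.exp (-(8 * ak a0 k)) ^ 2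
          ≤ Real.exp (ak a0 k) * Real.exp (-(8 * ak a0 k)) ^ 2 := by
            apply mul_le_mul_of_nonneg_right (hb3 k) (by positivity)
        _ = ε k ^ 2 * Real.exp (-(9 * ak a0 k)) := by
            simp only [hε]
            rw [← Real.exp_nat_mul, ← Real.exp_nat_mul, ← Real.exp_add, ← Real.exp_add]
            congr 1; push_cast; ring
    · have := hRR 0 (by norm_num)
      simpa using this
    · intro w hw hw'
      apply hGG k w
      apply hSh w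
      · simpa using hw
      · simpa using hw'
  have hlim : Tendsto (fun k : ℕ => ENNReal.ofReal (7 * Real.exp (-ak a0 k) * ‖φ‖ ^ 2))
      atTop (𝓝 0) := by
    have h1 : Tendsto (fun k : ℕ => 7 * Real.exp (-ak a0 k) * ‖φ‖ ^ 2) atTop (𝓝 0) := by
      have := (htend.const_mul 7).mul_const (‖φ‖ ^ 2)
      simpa using this
    have h2 := (ENNReal.continuous_ofReal.tendsto 0).comp h1
    rw [ENNReal.ofReal_zero] at h2
    exact h2
  exact tendsto_of_tendsto_of_tendsto_of_le_of_le' tendsto_const_nhds hlim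
    (Eventually.of_forall fun _ => zero_le) hev

end Pool.Agent.H39.R1
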