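import Pool.Agent.H39.R1.Num

set_option autoImplicit false

/-! Assembly: doubly exponentially small absolutely continuous spectrum near the band edges. -/

namespace Pool.Agent.H39.R1

open Complex MeasureTheory ProbabilityTheory Filter
open scoped ENNReal Topology InnerProductSpace
open Pool.Agent.H12R2.And (V ee Q NR PP Good IsH Rz Dep mutuallySingular_of_rnDeriv)

variable {d : ℕ}

/-- edge interval -/
def EI (d p : ℕ) (b : Bool) : Set ℝ :=
  if b then Set.Ioo (-1) (-1 + et d p) else Set.Ioo (4 * d + 1 - et d p) (4 * d + 1)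

/-- the good energies at stage `p` -/
def SB (d p : ℕ) (b : Bool) : Set ℝ := EI d p b ∩ XX d (tt (aa d p)) (LL d p)

lemma measurableSet_EI (p : ℕ) (b : Bool) : MeasurableSet (EI d p b) := by
  unfold EI; cases b
  · simp only [Bool.false_eq_true, if_false]; exact measurableSet_Ioo
  · simp only [if_true]; exact measurableSet_Ioo

lemma measurableSet_SB (p : ℕ) (b : Bool) : MeasurableSet (SB d p b) :=
  (measurableSet_EI p b).inter (measurableSet_XX _ _)

lemma EI_sub (hd : 1 ≤ d) (p : ℕ) (b : Bool) :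
    EI d p b ⊆ Set.Ioc (-(4 * d + 2) : ℝ) (4 * d + 2) := by
  have hd' : (1 : ℝ) ≤ d := by exact_mod_cast hd
  have h1 := et_le_one (p := p) hd
  have h0 := et_pos (p := p) hd
  intro E hE
  unfold EI at hE
  cases b
  · simp only [Bool.false_eq_true, if_false] at hE
    exact ⟨by linarith [hE.1], by linarith [hE.2]⟩
  · simp only [if_true] at hE
    exact ⟨by linarith [hE.1], by linarith [hE.2]⟩

lemma near_EI (p : ℕ) (b : Bool) {E : ℝ} (hE : E ∈ EI d p b) : Near d b (et d p) E := by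
  unfold EI at hE
  unfold Near
  cases b
  · simp only [Bool.false_eq_true, if_false] at hE ⊢
    exact hE.1.le
  · simp only [if_true] at hE ⊢
    exact hE.2.le

/-- the main estimate at stage `p` -/
lemma stage_ae (hd : 2 ≤ d) {p : ℕ} (hp : Stage d p) (b : Bool) :
    ∀ᵐ ω ∂(PP d), ∀ (H : lp (fun _ : V d => ℂ) 2 →L[ℂ] lp (fun _ : V d => ℂ) 2), IsH ω H →
      ∀ (ψ : lp (fun _ : V d => ℂ) 2) (μ : Measure ℝ), IsFiniteMeasure μ →
        (∀ z : ℂ, z.im ≠ 0 → (∫ x, ((x : ℂ) - z)⁻¹ ∂μ) = inner ℂ ψ (Rz H z ψ)) →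
        (μ.restrict (SB d p b)) ⟂ₘ volume := by
  have hd1 : 1 ≤ d := by omega
  have h4 := hp.tt.four
  have ha := aa_ge hd1 hp
  have hL1 : 1 ≤ LL d p := by
    have := L_ge' hp
    have h5 : (1 : ℝ) ≤ LL d p := by linarith
    exact_mod_cast h5
  refine engine hd (L0 := LL d p) (J := fun ω a => JJ b p (qq d p) ω a)
    (fun a => dep_JJ b p (qq d p) a) hL1 (a0 := aa d p) (h4.trans ha) (s_big1 hd1 hp)
    (s_big1' hd1 hp) (s_big2 hp) ?_ (measurableSet_EI p b) (EI_sub hd1 p b) ?_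
  · intro a
    exact (not_JJ_le b p (qq d p) a).trans (s_prob hd1 hp)
  · intro E hE ω a hJ
    have hd' : (1 : ℝ) ≤ d := by exact_mod_cast hd1
    have h := good_of_JJ (E := E) (ρ := (512 * d ^ 2 * (2 * p + 1) ^ 2 : ℝ)⁻¹) hd1 hJ
      (near_EI p b hE) (by positivity) (s_rho hd1)
    exact h.mono (s_good hd1 hp)

/-- the set of energies -/
def SS (d : ℕ) : Set ℝ := ⋃ p ∈ {p | Stage d p}, ⋃ b : Bool, SB d p b

lemma measurableSet_SS : MeasurableSet (SS d) :=
  MeasurableSet.biUnion (Set.to_countable _) fun p _ => MeasurableSet.iUnion fun b =>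
    measurableSet_SB p b

lemma et_antitone (hd : 1 ≤ d) : Antitone (et d) := by
  intro a b hab
  have hd' : (1 : ℝ) ≤ d := by exact_mod_cast hd
  have hab' : (a : ℝ) ≤ b := by exact_mod_cast hab
  have h0 : (0 : ℝ) ≤ a := Nat.cast_nonneg a
  unfold et
  apply inv_anti₀ (by positivity)
  gcongr

lemma et_tendsto (hd : 1 ≤ d) : Tendsto (et d) atTop (𝓝 0) := by
  have hd' : (1 : ℝ) ≤ d := by exact_mod_cast hd
  have h1 : Tendsto (fun p : ℕ => (2 * (p : ℝ) + 1)⁻¹) atTop (𝓝 0) :=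
    tendsto_inv_atTop_zero.comp tendsto_el
  refine squeeze_zero (fun m => (et_pos hd).le) (fun p => ?_) h1
  have h0 : (0 : ℝ) ≤ p := Nat.cast_nonneg p
  unfold et
  apply inv_anti₀ (by positivity)
  have a1 : (2 * (p : ℝ) + 1) ≤ (2 * p + 1) ^ 2 := le_self_pow₀ (by linarith) (by norm_num)
  have a2 : (0 : ℝ) ≤ (2 * (p : ℝ) + 1) ^ 2 := by positivity
  nlinarith

/-- the constant of the theorem -/
noncomputable def c2 (d : ℕ) : ℝ := c1 d / 4 / (576 * d) ^ ((d : ℝ) / 2)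

lemma c2_pos (hd : 1 ≤ d) : 0 < c2 d := by
  have := c1_pos d
  have hd' : (1 : ℝ) ≤ d := by exact_mod_cast hd
  unfold c2; positivity

lemma final_num (hd : 1 ≤ d) {p : ℕ} (hp : Stage d p) {η : ℝ} (hη : et d (p + 1) ≤ η) :
    Real.exp (-(aa d p / 2)) ≤ Real.exp (-Real.exp (c2 d * η ^ (-(d : ℝ) / 2))) := by
  have hd' : (1 : ℝ) ≤ d := by exact_mod_cast hd
  have h0 : (0 : ℝ) ≤ p := Nat.cast_nonneg p
  have hη0 : 0 < η := (et_pos hd).trans_le hη
  apply Real.exp_le_exp.2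
  apply neg_le_neg
  have h1 : η ^ (-(d : ℝ) / 2) ≤ (576 * d) ^ ((d : ℝ) / 2) * (2 * p + 1) ^ d := by
    have a1 : η⁻¹ ≤ 576 * d * (2 * p + 1) ^ 2 := by
      have : η⁻¹ ≤ (et d (p + 1))⁻¹ := inv_anti₀ (et_pos hd) hη
      refine this.trans ?_
      unfold et
      rw [inv_inv]
      push_cast
      have : (2 * ((p : ℝ) + 1) + 1) ≤ 3 * (2 * p + 1) := by linarith
      calc 64 * (d : ℝ) * (2 * ((p : ℝ) + 1) + 1) ^ 2 ≤ 64 * d * (3 * (2 * p + 1)) ^ 2 := by gcongr
        _ = _ := by ring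
    have a2 : η ^ (-(d : ℝ) / 2) = (η⁻¹) ^ ((d : ℝ) / 2) := by
      rw [Real.inv_rpow hη0.le, ← Real.rpow_neg hη0.le]; congr 1; ring
    rw [a2]
    calc (η⁻¹) ^ ((d : ℝ) / 2) ≤ (576 * d * (2 * p + 1) ^ 2) ^ ((d : ℝ) / 2) :=
          Real.rpow_le_rpow (by positivity) a1 (by positivity)
      _ = _ := by
          rw [Real.mul_rpow (by positivity) (by positivity)]
          congr 1
          rw [← Real.rpow_natCast (2 * (p : ℝ) + 1) 2, ← Real.rpow_mul (by positivity),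
            ← Real.rpow_natCast]
          congr 1; push_cast; ring
  have h2 : c2 d * η ^ (-(d : ℝ) / 2) ≤ yy d p / 4 := by
    calc c2 d * η ^ (-(d : ℝ) / 2) ≤ c2 d * ((576 * d) ^ ((d : ℝ) / 2) * (2 * p + 1) ^ d) := by
          apply mul_le_mul_of_nonneg_left h1 (c2_pos hd).le
      _ = yy d p / 4 := by
          unfold c2 yy
          have : (0 : ℝ) < (576 * d) ^ ((d : ℝ) / 2) := by positivity
          field_simp
  have h3 := aa_ge hd hp
  have h4 := hp.tt.four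
  have h5 : Real.exp (yy d p / 4) ^ 2 = sc d p := by
    unfold sc; rw [← Real.exp_nat_mul]; congr 1; push_cast; ring
  have h6 := Real.exp_le_exp.2 h2
  have h7 : 0 < Real.exp (yy d p / 4) := Real.exp_pos _
  have h8 : 2 ≤ Real.exp (yy d p / 4) := by nlinarith
  nlinarith

lemma small_compl (hd : 2 ≤ d) : ∃ η₀ : ℝ, 0 < η₀ ∧ ∀ η : ℝ, 0 < η → η < η₀ →
    volume (Set.Ioo (-1) (-1 + η) \ SS d) ≤
      ENNReal.ofReal (Real.exp (-Real.exp (c2 d * η ^ (-(d : ℝ) / 2)))) ∧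
    volume (Set.Ioo (4 * d + 1 - η) (4 * d + 1) \ SS d) ≤
      ENNReal.ofReal (Real.exp (-Real.exp (c2 d * η ^ (-(d : ℝ) / 2)))) := by
  have hd1 : 1 ≤ d := by omega
  obtain ⟨m0, hm0⟩ := (ev_stage hd1).exists_forall_of_atTop
  refine ⟨et d m0, et_pos hd1, fun η hη hη0 => ?_⟩
  have hex : ∃ m, m0 ≤ m ∧ et d (m + 1) ≤ η ∧ η < et d m := by
    have h1 : ∃ j : ℕ, et d (m0 + j) ≤ η := by
      have h2 := (et_tendsto hd1).eventually (gt_mem_nhds hη)
      obtain ⟨j, hj⟩ := (h2.and (eventually_ge_atTop m0)).exists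
      refine ⟨j - m0, ?_⟩
      rw [Nat.add_sub_cancel' hj.2]
      exact hj.1.le
    classical
    set j := Nat.find h1 with hj
    have hj1 := Nat.find_spec h1
    have hj0 : j ≠ 0 := by
      intro h0
      rw [← hj, h0, add_zero] at hj1
      linarith
    obtain ⟨i, hi⟩ := Nat.exists_eq_succ_of_ne_zero hj0
    refine ⟨m0 + i, by omega, ?_, ?_⟩
    · rw [← hj, hi] at hj1
      exact hj1
    · have := Nat.find_min h1 (m := i) (by rw [← hj]; omega)
      exact not_le.1 this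
  obtain ⟨m, hm, hm1, hm2⟩ := hex
  have hst := hm0 m hm
  have h4 := hst.tt.four
  have ha := aa_ge hd1 hst
  have hL1 : 1 ≤ LL d m := by
    have := L_ge' hst
    have h5 : (1 : ℝ) ≤ LL d m := by linarith
    exact_mod_cast h5
  have hcomp : ∀ (b : Bool) (I : Set ℝ), I ⊆ EI d m b →
      volume (I \ SS d) ≤ ENNReal.ofReal (Real.exp (-Real.exp (c2 d * η ^ (-(d : ℝ) / 2)))) := by
    intro b I hI
    have hsub : I \ SS d ⊆ (XX d (tt (aa d m)) (LL d m))ᶜ := by
      intro E hE hEX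
      apply hE.2
      simp only [SS, Set.mem_iUnion]
      exact ⟨m, hst, b, hI hE.1, hEX⟩
    refine (measure_mono hsub).trans ((volume_XX hd hL1 (h4.trans ha) (s_big1 hd1 hst)
      (s_big1' hd1 hst)).trans ?_)
    apply ENNReal.ofReal_le_ofReal
    exact final_num hd1 hst hm1
  constructor
  · apply hcomp true
    intro E hE
    simp only [EI, if_true]
    exact ⟨hE.1, by linarith [hE.2]⟩
  · apply hcomp false
    intro E hE
    simp only [EI, Bool.false_eq_true, if_false]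
    exact ⟨by linarith [hE.1], hE.2⟩

lemma restrict_biUnion_singular {μ : Measure ℝ} {ι : Type*} {s : Set ι} (hs : s.Countable)
    {A : ι → Set ℝ} (h : ∀ i ∈ s, (μ.restrict (A i)) ⟂ₘ volume) :
    (μ.restrict (⋃ i ∈ s, A i)) ⟂ₘ volume := by
  have : Countable s := hs.to_subtype
  rw [Set.biUnion_eq_iUnion]
  refine Measure.MutuallySingular.mono ?_ (Measure.restrict_iUnion_le) le_rfl
  rw [Measure.MutuallySingular.sum_left]
  exact fun i => h i i.2

theorem main (hd : 2 ≤ d) :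
    ∀ᵐ ω ∂(PP d), ∀ (H : lp (fun _ : V d => ℂ) 2 →L[ℂ] lp (fun _ : V d => ℂ) 2), IsH ω H →
      ∀ (ψ : lp (fun _ : V d => ℂ) 2) (μ : Measure ℝ), IsFiniteMeasure μ →
        (∀ z : ℂ, z.im ≠ 0 → (∫ x, ((x : ℂ) - z)⁻¹ ∂μ) = inner ℂ ψ (Rz H z ψ)) →
        (μ.restrict (SS d)) ⟂ₘ volume := by
  have h1 : ∀ᵐ ω ∂(PP d), ∀ m : ℕ, ∀ b : Bool, Stage d m →
      ∀ (H : lp (fun _ : V d => ℂ) 2 →L[ℂ] lp (fun _ : V d => ℂ) 2), IsH ω H →
      ∀ (ψ : lp (fun _ : V d => ℂ) 2) (μ : Measure ℝ), IsFiniteMeasure μ →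
        (∀ z : ℂ, z.im ≠ 0 → (∫ x, ((x : ℂ) - z)⁻¹ ∂μ) = inner ℂ ψ (Rz H z ψ)) →
        (μ.restrict (SB d m b)) ⟂ₘ volume := by
    rw [ae_all_iff]; intro m
    rw [ae_all_iff]; intro b
    by_cases hm : Stage d m
    · filter_upwards [stage_ae hd hm b] with ω hω _
      exact hω
    · exact ae_of_all _ fun ω h => absurd h hm
  filter_upwards [h1] with ω hω H hH ψ μ hμf hμ
  unfold SS
  refine restrict_biUnion_singular (Set.to_countable _) fun m hm => ?_
  have := restrict_biUnion_singular (μ := μ) (s := (Set.univ : Set Bool)) (Set.to_countable _)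
    (A := fun b => SB d m b) fun b _ => hω m b hm H hH ψ μ hμf hμ
  simpa using this

end Pool.Agent.H39.R1
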