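import Pool.Agent.H39.R1.CT

set_option autoImplicit false

/-! Quadratic forms near the band edges. -/

namespace Pool.Agent.H39.R1

open Finset Complex
open Pool.Agent.H12R2.And (V ee Q mem_Q card_Q Q_mono Q_trans Q_symm self_mem_Q NR NR_complex Good hop
  pot hop_sub_of_eq_on)

variable {d : ℕ}

/-- the sum over the neighbours -/
noncomputable def nb (h : V d → ℝ) (x : V d) : ℝ := ∑ i : Fin d, (h (x + ee i) + h (x - ee i))

/-- the Dirichlet form, as a sum over `D` -/
noncomputable def PF (D : Finset (V d)) (h : V d → ℝ) : ℝ :=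
  ∑ x ∈ D, (2 * d * h x ^ 2 - h x * nb h x)

/-- energies within `η` of the edge `-1` (`b = true`) or `4 d + 1` (`b = false`) -/
def Near (d : ℕ) (b : Bool) (η E : ℝ) : Prop :=
  if b then E ≤ -1 + η else 4 * d + 1 - η ≤ E

lemma hop_eq (ω : V d → Bool) (v : V d → ℂ) (x : V d) :
    hop ω v x = ((2 * d + pot ω x : ℝ) : ℂ) * v x - ∑ i : Fin d, (v (x + ee i) + v (x - ee i)) := by
  unfold hop pot
  simp only [Finset.sum_add_distrib, Finset.sum_sub_distrib, Finset.sum_const,
    Finset.card_univ, Fintype.card_fin, nsmul_eq_mul]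
  by_cases h : ω x
  · simp [h]; ring
  · simp [h]; ring

lemma nbr_norm_le (v : V d → ℂ) (x : V d) :
    ‖(starRingEnd ℂ) (v x) * ∑ i : Fin d, (v (x + ee i) + v (x - ee i))‖ ≤
      ‖v x‖ * nb (fun y => ‖v y‖) x := by
  rw [norm_mul, Complex.norm_conj]
  apply mul_le_mul_of_nonneg_left _ (norm_nonneg _)
  exact (norm_sum_le _ _).trans (Finset.sum_le_sum fun i _ => norm_add_le _ _)

lemma NR_of_form {ω : V d → Bool} {D : Finset (V d)} {b : Bool} {η E : ℝ} (hη : 0 ≤ η)
    (hE : Near d b η E)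
    (hq : ∀ h : V d → ℝ, (∀ x ∉ D, h x = 0) → 
      2 * η * ∑ x ∈ D, h x ^ 2 ≤ PF D h + 2 * ∑ x ∈ D with ω x = b, h x ^ 2) :
    NR ω E D η := by
  intro v hv
  set h : V d → ℝ := fun x => ‖v x‖ with hh
  have h1 := hq h (fun x hx => by simp [hh, hv x hx])
  set S : ℝ := ∑ x ∈ D, ‖v x‖ ^ 2 with hS
  have hS0 : 0 ≤ S := Finset.sum_nonneg fun _ _ => by positivity
  have key : η * S ≤ ∑ x ∈ D, ‖v x‖ * ‖hop ω v x - (E : ℂ) * v x‖ := by
    set A : ℂ := ∑ x ∈ D, (starRingEnd ℂ) (v x) * (hop ω v x - (E : ℂ) * v x) with hA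
    have hA1 : ‖A‖ ≤ ∑ x ∈ D, ‖v x‖ * ‖hop ω v x - (E : ℂ) * v x‖ := by
      refine (norm_sum_le _ _).trans (le_of_eq (Finset.sum_congr rfl fun x _ => ?_))
      rw [norm_mul, Complex.norm_conj]
    refine le_trans ?_ hA1
    have e1 : ∀ x, (starRingEnd ℂ) (v x) * (hop ω v x - (E : ℂ) * v x) =
        ((2 * d + pot ω x - E : ℝ) : ℂ) * ((‖v x‖ ^ 2 : ℝ) : ℂ)
          - (starRingEnd ℂ) (v x) * ∑ i : Fin d, (v (x + ee i) + v (x - ee i)) := by
      intro x
      rw [hop_eq]
      have h5 : (starRingEnd ℂ) (v x) * v x = ((‖v x‖ ^ 2 : ℝ) : ℂ) := by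
        rw [Complex.conj_mul']; push_cast; rfl
      rw [← h5]; push_cast; ring
    have e2 : A.re = ∑ x ∈ D, ((2 * d + pot ω x - E) * ‖v x‖ ^ 2
          - ((starRingEnd ℂ) (v x) * ∑ i : Fin d, (v (x + ee i) + v (x - ee i))).re) := by
      rw [hA, Complex.re_sum]
      refine Finset.sum_congr rfl fun x _ => ?_
      rw [e1 x, Complex.sub_re, ← Complex.ofReal_mul, Complex.ofReal_re]
    have e3 : ∀ x, |((starRingEnd ℂ) (v x) * ∑ i : Fin d, (v (x + ee i) + v (x - ee i))).re| ≤
        h x * nb h x := fun x => (Complex.abs_re_le_norm _).trans (nbr_norm_le v x)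
    have e4 : ∑ x ∈ D with ω x = b, h x ^ 2 = ∑ x ∈ D, (if ω x = b then h x ^ 2 else 0) := by
      rw [Finset.sum_filter]
    unfold PF at h1
    cases b with
    | true =>
      have hE' : E ≤ -1 + η := by simpa [Near] using hE
      have g1 : η * S ≤ A.re := by
        have g2 : ∑ x ∈ D, ((2 * d * h x ^ 2 - h x * nb h x) + 2 * (if ω x = true then h x ^ 2 else 0)
            - (1 + E) * h x ^ 2) ≤ A.re := by
          rw [e2]
          refine Finset.sum_le_sum fun x _ => ?_
          have g3 := (abs_le.1 (e3 x)).2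
          have g4 : 2 * (if ω x = true then h x ^ 2 else 0) = (pot ω x + 1) * h x ^ 2 := by
            unfold pot
            by_cases hω : ω x = true
            · rw [if_pos hω, if_pos hω]; ring
            · rw [if_neg hω, if_neg hω]; ring
          rw [g4]
          simp only [hh] at g3 ⊢
          linarith
        refine le_trans ?_ g2
        rw [Finset.sum_sub_distrib, Finset.sum_add_distrib, ← Finset.mul_sum, ← Finset.mul_sum,
          ← e4]
        have : (1 + E) * ∑ x ∈ D, h x ^ 2 ≤ η * S := by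
          apply mul_le_mul_of_nonneg_right (by linarith) hS0
        have hSS : ∑ x ∈ D, h x ^ 2 = S := rfl
        rw [hSS] at this ⊢
        linarith
      exact g1.trans ((le_abs_self _).trans (Complex.abs_re_le_norm _))
    | false =>
      have hE' : 4 * d + 1 - η ≤ E := by simpa [Near] using hE
      have g1 : η * S ≤ -A.re := by
        have g2 : ∑ x ∈ D, ((2 * d * h x ^ 2 - h x * nb h x)
            + 2 * (if ω x = false then h x ^ 2 else 0)
            - (4 * d + 1 - E) * h x ^ 2) ≤ -A.re := by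
          rw [e2, ← Finset.sum_neg_distrib]
          refine Finset.sum_le_sum fun x _ => ?_
          have g3 := (abs_le.1 (e3 x)).1
          have g4 : 2 * (if ω x = false then h x ^ 2 else 0) = (1 - pot ω x) * h x ^ 2 := by
            unfold pot
            by_cases hω : ω x = true
            · rw [if_pos hω, if_neg (by rw [hω]; decide)]; ring
            · rw [if_neg hω, if_pos (by simpa using hω)]; ring
          rw [g4]
          simp only [hh] at g3 ⊢
          linarith
        refine le_trans ?_ g2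
        rw [Finset.sum_sub_distrib, Finset.sum_add_distrib, ← Finset.mul_sum, ← Finset.mul_sum,
          ← e4]
        have : (4 * d + 1 - E) * ∑ x ∈ D, h x ^ 2 ≤ η * S := by
          apply mul_le_mul_of_nonneg_right (by linarith) hS0
        have hSS : ∑ x ∈ D, h x ^ 2 = S := rfl
        rw [hSS] at this ⊢
        linarith
      exact g1.trans ((neg_le_abs _).trans (Complex.abs_re_le_norm _))
  have hcs : (∑ x ∈ D, ‖v x‖ * ‖hop ω v x - (E : ℂ) * v x‖) ^ 2 ≤
      S * ∑ x ∈ D, ‖hop ω v x - (E : ℂ) * v x‖ ^ 2 := Finset.sum_mul_sq_le_sq_mul_sq _ _ _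
  have h2 : (η * S) ^ 2 ≤ S * ∑ x ∈ D, ‖hop ω v x - (E : ℂ) * v x‖ ^ 2 :=
    (pow_le_pow_left₀ (by positivity) key 2).trans hcs
  rcases eq_or_lt_of_le hS0 with h0 | h0
  · rw [← h0, mul_zero]
    exact Finset.sum_nonneg fun _ _ => by positivity
  · refine le_of_mul_le_mul_left ?_ h0
    calc S * (η ^ 2 * S) = (η * S) ^ 2 := by ring
      _ ≤ _ := h2

lemma sum_shift_eq {D : Finset (V d)} {F : V d → ℝ} (c : V d) (h0 : ∀ x ∉ D, F x = 0)
    (h1 : ∀ x ∉ D, F (x + c) = 0) : ∑ x ∈ D, F (x + c) = ∑ x ∈ D, F x := by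
  classical
  have e1 : ∑ x ∈ D, F (x + c) = ∑ y ∈ D.map (Equiv.addRight c).toEmbedding, F y := by
    rw [Finset.sum_map]; rfl
  rw [e1]
  have e2 : ∑ y ∈ D.map (Equiv.addRight c).toEmbedding, F y =
      ∑ y ∈ (D.map (Equiv.addRight c).toEmbedding) ∪ D, F y := by
    apply Finset.sum_subset Finset.subset_union_left
    intro x _ hx'
    have : x - c ∉ D := by
      intro hc
      apply hx'
      rw [Finset.mem_map]
      exact ⟨x - c, hc, by simp⟩
    have := h1 _ this
    rwa [sub_add_cancel] at this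
  have e3 : ∑ y ∈ D, F y = ∑ y ∈ (D.map (Equiv.addRight c).toEmbedding) ∪ D, F y := by
    apply Finset.sum_subset Finset.subset_union_right
    intro x _ hx'
    exact h0 x hx'
  rw [e2, e3]

/-- the Dirichlet form dominates the sum of the squares of the differences -/
lemma grad_le_PF {D : Finset (V d)} {h : V d → ℝ} (h0 : ∀ x ∉ D, h x = 0) :
    ∑ x ∈ D, ∑ i : Fin d, (h (x + ee i) - h x) ^ 2 ≤ PF D h := by
  unfold PF nb
  have e1 : ∑ x ∈ D, (2 * d * h x ^ 2 - h x * ∑ i : Fin d, (h (x + ee i) + h (x - ee i))) =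
      ∑ i : Fin d, ∑ x ∈ D, (2 * h x ^ 2 - h x * h (x + ee i) - h x * h (x - ee i)) := by
    rw [Finset.sum_comm]
    refine Finset.sum_congr rfl fun x _ => ?_
    have : (2 * d * h x ^ 2 : ℝ) = ∑ i : Fin d, 2 * h x ^ 2 := by
      rw [Finset.sum_const, Finset.card_univ, Fintype.card_fin, nsmul_eq_mul]; ring
    rw [this, Finset.mul_sum, ← Finset.sum_sub_distrib]
    refine Finset.sum_congr rfl fun i _ => ?_
    ring
  rw [e1, Finset.sum_comm]
  refine Finset.sum_le_sum fun i _ => ?_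
  have e2 : ∑ x ∈ D, h x * h (x - ee i) = ∑ x ∈ D, h (x + ee i) * h x := by
    have := sum_shift_eq (D := D) (F := fun x => h x * h (x - ee i)) (ee i)
      (fun x hx => by simp [h0 x hx]) (fun x hx => by simp [h0 x hx])
    rw [← this]
    refine Finset.sum_congr rfl fun x _ => ?_
    simp
  have e3 : ∑ x ∈ D, h (x + ee i) ^ 2 ≤ ∑ x ∈ D, h x ^ 2 :=
    sum_shift_le (F := fun x => h x ^ 2) (fun x => by positivity) (fun x hx => by simp [h0 x hx])
      (ee i)
  have e4 : ∑ x ∈ D, (h (x + ee i) - h x) ^ 2 = ∑ x ∈ D, h (x + ee i) ^ 2 + ∑ x ∈ D, h x ^ 2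
      - 2 * ∑ x ∈ D, h (x + ee i) * h x := by
    rw [Finset.mul_sum, ← Finset.sum_add_distrib, ← Finset.sum_sub_distrib]
    refine Finset.sum_congr rfl fun x _ => ?_
    ring
  have e5 : ∑ x ∈ D, (2 * h x ^ 2 - h x * h (x + ee i) - h x * h (x - ee i)) =
      2 * ∑ x ∈ D, h x ^ 2 - ∑ x ∈ D, h (x + ee i) * h x - ∑ x ∈ D, h x * h (x - ee i) := by
    rw [Finset.mul_sum, ← Finset.sum_sub_distrib, ← Finset.sum_sub_distrib]
    refine Finset.sum_congr rfl fun x _ => ?_
    ring
  rw [e4, e5, e2]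
  linarith

end Pool.Agent.H39.R1
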