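import Pool.Agent.H39.R1.Prob
import Pool.Agent.H39.R1.Eng

set_option autoImplicit false

/-! Choice of the initial scale. -/

namespace Pool.Agent.H39.R1

open Filter
open scoped Topology

/-- the constant in the exponent of the initial scale -/
noncomputable def c1 (d : ℕ) : ℝ := 1 / (12 * (d + 1))

/-- the logarithm of the initial scale -/
noncomputable def yy (d p : ℕ) : ℝ := c1 d * (2 * p + 1) ^ d

/-- the number of small cubes -/
noncomputable def qq (d p : ℕ) : ℕ := ⌊Real.exp (yy d p)⌋₊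

/-- the initial scale -/
noncomputable def LL (d p : ℕ) : ℕ := p + qq d p * (2 * p + 1)

/-- the width of the edge zone -/
noncomputable def et (d p : ℕ) : ℝ := (64 * d * (2 * p + 1) ^ 2)⁻¹

/-- the decay exponent -/
noncomputable def aa (d p : ℕ) : ℝ := LL d p / (8192 * d ^ 2 * (2 * p + 1) ^ 2)

/-- the auxiliary large parameter -/
noncomputable def sc (d p : ℕ) : ℝ := Real.exp (yy d p / 2)

lemma c1_pos (d : ℕ) : 0 < c1 d := by unfold c1; positivity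

lemma ev_pow_exp (C : ℝ) (n : ℕ) {b : ℝ} (hb : 0 < b) :
    ∀ᶠ t : ℝ in atTop, C * t ^ n ≤ Real.exp (b * t) := by
  have h := (isLittleO_pow_exp_pos_mul_atTop (k := n) hb).bound
    (show (0 : ℝ) < (|C| + 1)⁻¹ by positivity)
  filter_upwards [h, eventually_ge_atTop 0] with t ht ht0
  rw [Real.norm_eq_abs, Real.norm_eq_abs, abs_of_pos (Real.exp_pos _),
    abs_of_nonneg (by positivity : (0 : ℝ) ≤ t ^ n), inv_mul_eq_div,
    le_div_iff₀ (by positivity)] at ht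
  refine le_trans ?_ ht
  have h1 : C ≤ |C| + 1 := (le_abs_self C).trans (by linarith)
  have h2 : (0 : ℝ) ≤ t ^ n := by positivity
  nlinarith

lemma tendsto_el : Tendsto (fun p : ℕ => (2 * (p : ℝ) + 1)) atTop atTop := by
  apply tendsto_atTop_mono (f := fun p : ℕ => (p : ℝ))
  · intro p
    have : (0 : ℝ) ≤ p := Nat.cast_nonneg p
    linarith
  · exact tendsto_natCast_atTop_atTop

lemma sc_ge {d : ℕ} (hd : 1 ≤ d) (p : ℕ) : Real.exp (c1 d / 2 * (2 * p + 1)) ≤ sc d p := by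
  unfold sc yy
  apply Real.exp_le_exp.2
  have h0 : (0 : ℝ) ≤ p := Nat.cast_nonneg p
  have h1 : (2 * (p : ℝ) + 1) ≤ (2 * p + 1) ^ d := le_self_pow₀ (by linarith) (by omega)
  have := c1_pos d
  nlinarith

lemma tendsto_sc {d : ℕ} (hd : 1 ≤ d) : Tendsto (fun p : ℕ => sc d p) atTop atTop := by
  refine tendsto_atTop_mono (sc_ge hd) ?_
  apply Real.tendsto_exp_atTop.comp
  exact Tendsto.const_mul_atTop (by have := c1_pos d; positivity) tendsto_el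

/-- the conditions on the auxiliary parameter -/
structure TT (d : ℕ) (t : ℝ) : Prop where
  four : 4 ≤ t
  three : 3 ^ d ≤ t
  num : 6 * 17 ^ (2 * d) * 10 ^ (2 * d + 1) ≤ t
  e1 : 6 * (2 * d) ^ 2 * 17 ^ (3 * d + 2) * t ^ (9 * d + 6) ≤ Real.exp (1 / 4 * t)
  e2 : (10 : ℝ) ^ (3 * d + 2) ≤ Real.exp (1 / 8 * t)
  e3 : 3 ^ d * t ^ (3 * d + 1) ≤ Real.exp (8 * t)

lemma ev_TT (d : ℕ) : ∀ᶠ t : ℝ in atTop, TT d t := by
  have h2 := ev_pow_exp (10 ^ (3 * d + 2)) 0 (b := 1 / 8) (by norm_num)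
  filter_upwards [eventually_ge_atTop 4, eventually_ge_atTop (3 ^ d),
    eventually_ge_atTop (6 * 17 ^ (2 * d) * 10 ^ (2 * d + 1)),
    ev_pow_exp (6 * (2 * d) ^ 2 * 17 ^ (3 * d + 2)) (9 * d + 6) (b := 1 / 4) (by norm_num), h2,
    ev_pow_exp (3 ^ d) (3 * d + 1) (b := 8) (by norm_num)] with t a1 a2 a3 a4 a5 a6
  exact ⟨a1, a2, a3, a4, by simpa using a5, a6⟩

/-- a good value of `p` -/
structure Stage (d p : ℕ) : Prop where
  tt : TT d (sc d p)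
  el : 16384 * d ^ 2 * (2 * p + 1) ^ 2 ≤ sc d p

lemma ev_stage {d : ℕ} (hd : 1 ≤ d) : ∀ᶠ p : ℕ in atTop, Stage d p := by
  have h1 := (tendsto_sc hd).eventually (ev_TT d)
  have h2 := tendsto_el.eventually (ev_pow_exp (16384 * d ^ 2) 2
    (show 0 < c1 d / 2 by have := c1_pos d; positivity))
  filter_upwards [h1, h2] with p a1 a2
  exact ⟨a1, a2.trans (sc_ge hd p)⟩

section bounds

variable {d p : ℕ}

lemma sc_sq : sc d p ^ 2 = Real.exp (yy d p) := by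
  unfold sc; rw [← Real.exp_nat_mul]; congr 1; push_cast; ring

lemma sc_pow : sc d p ^ (8 * (d + 1)) = Real.exp ((2 * p + 1 : ℝ) ^ d / 3) := by
  unfold sc yy c1
  rw [← Real.exp_nat_mul]; congr 1; push_cast
  have : (0 : ℝ) < d + 1 := by positivity
  field_simp
  ring

lemma q_le : (qq d p : ℝ) ≤ sc d p ^ 2 := by
  rw [sc_sq]; exact Nat.floor_le (Real.exp_pos _).le

lemma q_ge (h : Stage d p) : sc d p ^ 2 / 2 ≤ qq d p := by
  have h1 := Nat.lt_floor_add_one (Real.exp (yy d p))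
  rw [← sc_sq] at h1
  have h2 : (⌊sc d p ^ 2⌋₊ : ℝ) = qq d p := by rw [sc_sq]; rfl
  rw [h2] at h1
  have h3 := h.tt.four
  nlinarith

lemma L_ge (h : Stage d p) : sc d p ^ 2 / 2 ≤ LL d p := by
  refine (q_ge h).trans ?_
  have : qq d p ≤ LL d p := by
    unfold LL
    calc qq d p ≤ qq d p * (2 * p + 1) := Nat.le_mul_of_pos_right _ (by omega)
      _ ≤ _ := Nat.le_add_left _ _
  exact_mod_cast this

lemma L_ge' (h : Stage d p) : sc d p ≤ LL d p := by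
  have h1 := L_ge h
  have h3 := h.tt.four
  nlinarith

lemma el_le (hd : 1 ≤ d) (h : Stage d p) : 2 * (2 * (p : ℝ) + 1) ≤ sc d p := by
  have hd' : (1 : ℝ) ≤ d := by exact_mod_cast hd
  refine le_trans ?_ h.el
  have h0 : (0 : ℝ) ≤ p := Nat.cast_nonneg p
  have h1 : (1 : ℝ) ≤ (d : ℝ) ^ 2 := one_le_pow₀ hd'
  have h2 : (2 * (p : ℝ) + 1) ≤ (2 * p + 1) ^ 2 := le_self_pow₀ (by linarith) (by norm_num)
  nlinarith

lemma L_le (hd : 1 ≤ d) (h : Stage d p) : (LL d p : ℝ) ≤ sc d p ^ 3 := by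
  have h1 := q_le (d := d) (p := p)
  have h2 := el_le hd h
  have h3 := h.tt.four
  have h0 : (0 : ℝ) ≤ p := Nat.cast_nonneg p
  unfold LL
  push_cast
  have h4 : (1 : ℝ) ≤ sc d p ^ 2 := one_le_pow₀ (by linarith)
  calc (p : ℝ) + qq d p * (2 * p + 1) ≤ (2 * p + 1) * sc d p ^ 2 + sc d p ^ 2 * (2 * p + 1) := by
        have a1 : (p : ℝ) ≤ (2 * p + 1) * 1 := by linarith
        have a2 : (2 * (p : ℝ) + 1) * 1 ≤ (2 * p + 1) * sc d p ^ 2 := by gcongr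
        have a3 : (qq d p : ℝ) * (2 * p + 1) ≤ sc d p ^ 2 * (2 * p + 1) := by gcongr
        linarith
    _ = 2 * (2 * p + 1) * sc d p ^ 2 := by ring
    _ ≤ sc d p * sc d p ^ 2 := by gcongr
    _ = _ := by ring

lemma aa_ge (hd : 1 ≤ d) (h : Stage d p) : sc d p ≤ aa d p := by
  have hd' : (1 : ℝ) ≤ d := by exact_mod_cast hd
  have h0 : (0 : ℝ) ≤ p := Nat.cast_nonneg p
  have h1 := L_ge h
  have h2 := h.el
  have h3 := h.tt.four
  unfold aa
  rw [le_div_iff₀ (by positivity)]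
  refine le_trans ?_ h1
  nlinarith

lemma et_pos (hd : 1 ≤ d) : 0 < et d p := by
  have hd' : (1 : ℝ) ≤ d := by exact_mod_cast hd
  unfold et; positivity

lemma et_le_one (hd : 1 ≤ d) : et d p ≤ 1 := by
  have hd' : (1 : ℝ) ≤ d := by exact_mod_cast hd
  have h0 : (0 : ℝ) ≤ p := Nat.cast_nonneg p
  unfold et
  apply inv_le_one_of_one_le₀
  have : (1 : ℝ) ≤ (2 * p + 1) ^ 2 := one_le_pow₀ (by linarith)
  nlinarith

lemma s_big1 (hd : 1 ≤ d) (h : Stage d p) :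
    6 * (2 * d) ^ 2 * (17 * (LL d p : ℝ)) ^ (3 * d + 2) ≤ Real.exp (aa d p / 4) := by
  have h1 := L_le hd h
  have h2 := aa_ge hd h
  have h3 := h.tt.four
  calc 6 * (2 * d) ^ 2 * (17 * (LL d p : ℝ)) ^ (3 * d + 2)
      ≤ 6 * (2 * d) ^ 2 * (17 * sc d p ^ 3) ^ (3 * d + 2) := by gcongr
    _ = 6 * (2 * d) ^ 2 * 17 ^ (3 * d + 2) * sc d p ^ (9 * d + 6) := by
        rw [mul_pow (17 : ℝ) (sc d p ^ 3) (3 * d + 2), ← pow_mul,
          show 3 * (3 * d + 2) = 9 * d + 6 by ring, mul_assoc (6 * (2 * (d : ℝ)) ^ 2)]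
    _ ≤ Real.exp (1 / 4 * sc d p) := h.tt.e1
    _ ≤ _ := Real.exp_le_exp.2 (by linarith)

lemma s_big1' (hd : 1 ≤ d) (h : Stage d p) :
    (10 : ℝ) ^ (3 * d + 2) ≤ Real.exp (aa d p / 8) := by
  have h2 := aa_ge hd h
  exact h.tt.e2.trans (Real.exp_le_exp.2 (by linarith))

lemma s_big2 (h : Stage d p) : 6 * 17 ^ (2 * d) * 10 ^ (2 * d + 1) ≤ LL d p := by
  have h1 := h.tt.num.trans (L_ge' h)
  exact_mod_cast h1

lemma s_prob (hd : 1 ≤ d) (h : Stage d p) :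
    (2 * (qq d p : ℝ) + 1) ^ d * (27 / 40 : ℝ) ^ ((2 * p + 1) ^ d) ≤
      ((LL d p : ℝ) ^ (2 * d + 1))⁻¹ := by
  have h1 := L_le hd h
  have h2 := q_le (d := d) (p := p)
  have h3 := h.tt.four
  have h4 := L_ge' h
  have hL : (0 : ℝ) < LL d p := by linarith
  have hs0 : 0 < sc d p := by linarith
  have e1 : (27 / 40 : ℝ) ^ ((2 * p + 1) ^ d) ≤ (sc d p ^ (8 * (d + 1)))⁻¹ := by
    rw [sc_pow, ← Real.exp_neg]
    have : (27 / 40 : ℝ) ≤ Real.exp (-(1 / 3)) := by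
      have h5 := Real.add_one_le_exp (1 / 3 : ℝ)
      have h6 : Real.exp (1 / 3 : ℝ) ≤ 40 / 27 := by
        have h7 := Real.exp_bound' (x := 1 / 3) (by norm_num) (by norm_num) (n := 4) (by norm_num)
        refine h7.trans ?_
        norm_num [Finset.sum_range_succ, Nat.factorial]
      rw [Real.exp_neg]
      have h8 : (27 / 40 : ℝ) = (40 / 27)⁻¹ := by norm_num
      rw [h8]
      exact inv_anti₀ (Real.exp_pos _) h6
    calc (27 / 40 : ℝ) ^ ((2 * p + 1) ^ d) ≤ (Real.exp (-(1 / 3))) ^ ((2 * p + 1) ^ d) := by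
          gcongr
      _ = _ := by
          rw [← Real.exp_nat_mul]; congr 1; push_cast; ring
  have e2 : (2 * (qq d p : ℝ) + 1) ^ d ≤ (3 * sc d p ^ 2) ^ d := by
    gcongr
    nlinarith
  have e3 : (3 * sc d p ^ 2) ^ d * (LL d p : ℝ) ^ (2 * d + 1) ≤ sc d p ^ (8 * (d + 1)) := by
    calc (3 * sc d p ^ 2) ^ d * (LL d p : ℝ) ^ (2 * d + 1)
        ≤ (3 * sc d p ^ 2) ^ d * (sc d p ^ 3) ^ (2 * d + 1) := by gcongr
      _ = 3 ^ d * sc d p ^ (8 * d + 3) := by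
          rw [mul_pow, ← pow_mul, ← pow_mul, mul_assoc, ← pow_add]; congr 2; ring
      _ ≤ sc d p * sc d p ^ (8 * d + 3) := by gcongr; exact h.tt.three
      _ = sc d p ^ (8 * d + 4) := by rw [pow_succ' _ (8 * d + 3)]
      _ ≤ _ := pow_le_pow_right₀ (by linarith) (by omega)
  calc (2 * (qq d p : ℝ) + 1) ^ d * (27 / 40 : ℝ) ^ ((2 * p + 1) ^ d)
      ≤ (3 * sc d p ^ 2) ^ d * (sc d p ^ (8 * (d + 1)))⁻¹ := by gcongr
    _ ≤ _ := by
        rw [← div_eq_mul_inv, div_le_iff₀ (by positivity), inv_mul_eq_div,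
          le_div_iff₀ (by positivity)]
        exact e3

lemma s_good (hd : 1 ≤ d) (h : Stage d p) :
    4 * d * (64 * d * (2 * p + 1) ^ 2 : ℝ) * (2 * (LL d p : ℝ) + 1) ^ d *
        Real.exp (-((512 * d ^ 2 * (2 * p + 1) ^ 2 : ℝ)⁻¹ * (LL d p : ℝ))) ≤
      Real.exp (-(8 * aa d p)) := by
  have hd' : (1 : ℝ) ≤ d := by exact_mod_cast hd
  have h0 : (0 : ℝ) ≤ p := Nat.cast_nonneg p
  have h1 := L_le hd h
  have h2 := aa_ge hd h
  have h3 := h.tt.four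
  have h4 := L_ge' h
  have e1 : (512 * d ^ 2 * (2 * p + 1) ^ 2 : ℝ)⁻¹ * (LL d p : ℝ) = 16 * aa d p := by
    unfold aa
    field_simp
    ring
  rw [e1]
  have e2 : 4 * d * (64 * d * (2 * p + 1) ^ 2 : ℝ) ≤ sc d p := by
    refine le_trans ?_ h.el
    have : (0 : ℝ) ≤ d ^ 2 * (2 * p + 1) ^ 2 := by positivity
    nlinarith
  have e3 : (2 * (LL d p : ℝ) + 1) ^ d ≤ (3 * sc d p ^ 3) ^ d := by
    gcongr
    have : (1 : ℝ) ≤ sc d p ^ 3 := one_le_pow₀ (by linarith)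
    linarith
  have e4 : 4 * d * (64 * d * (2 * p + 1) ^ 2 : ℝ) * (2 * (LL d p : ℝ) + 1) ^ d ≤
      Real.exp (8 * aa d p) := by
    calc 4 * d * (64 * d * (2 * p + 1) ^ 2 : ℝ) * (2 * (LL d p : ℝ) + 1) ^ d
        ≤ sc d p * (3 * sc d p ^ 3) ^ d := by gcongr
      _ = 3 ^ d * sc d p ^ (3 * d + 1) := by
          rw [mul_pow, ← pow_mul, pow_succ]; ring
      _ ≤ Real.exp (8 * sc d p) := h.tt.e3
      _ ≤ _ := Real.exp_le_exp.2 (by linarith)
  calc _ ≤ Real.exp (8 * aa d p) * Real.exp (-(16 * aa d p)) := by gcongr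
    _ = _ := by rw [← Real.exp_add]; congr 1; ring

lemma s_rho (hd : 1 ≤ d) :
    2 * d * (Real.exp ((512 * d ^ 2 * (2 * p + 1) ^ 2 : ℝ)⁻¹) - 1) ≤
      (64 * d * (2 * p + 1) ^ 2 : ℝ)⁻¹ / 2 := by
  have hd' : (1 : ℝ) ≤ d := by exact_mod_cast hd
  have h0 : (0 : ℝ) ≤ p := Nat.cast_nonneg p
  set ρ : ℝ := (512 * d ^ 2 * (2 * p + 1) ^ 2 : ℝ)⁻¹ with hρ
  have hρ0 : 0 < ρ := by positivity
  have hρ1 : ρ ≤ 1 := by
    apply inv_le_one_of_one_le₀
    have a1 : (1 : ℝ) ≤ (2 * p + 1) ^ 2 := one_le_pow₀ (by linarith)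
    have a2 : (1 : ℝ) ≤ (d : ℝ) ^ 2 := one_le_pow₀ hd'
    nlinarith
  have h1 := Real.abs_exp_sub_one_le (x := ρ) (by rwa [abs_of_pos hρ0])
  rw [abs_of_pos hρ0] at h1
  have h2 := (abs_le.1 h1).2
  calc 2 * d * (Real.exp ρ - 1) ≤ 2 * d * (2 * ρ) := by gcongr
    _ = _ := by
        rw [hρ]; field_simp; ring

end bounds

end Pool.Agent.H39.R1
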