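import Pool.Agent.H39.R1.Form

set_option autoImplicit false

/-! The Poincaré inequality on a cube. -/

namespace Pool.Agent.H39.R1

open Finset
open Pool.Agent.H12R2.And (V ee Q mem_Q card_Q Q_mono Q_trans Q_symm self_mem_Q sum_Q_shift mem_Q_shift)

variable {d : ℕ}

/-- the interval -/
noncomputable def II (p : ℕ) : Finset ℤ := Finset.Icc (-(p : ℤ)) p

lemma mem_II {p : ℕ} {r : ℤ} : r ∈ II p ↔ |r| ≤ p := by
  unfold II; rw [Finset.mem_Icc, abs_le]

lemma card_II (p : ℕ) : (II p).card = 2 * p + 1 := by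
  unfold II; rw [Int.card_Icc]; omega

lemma line {p : ℕ} (f : ℤ → ℝ) {s t : ℤ} (hs : s ∈ II p) (ht : t ∈ II p) :
    (f s - f t) ^ 2 ≤ (2 * p + 1) * ∑ r ∈ II p, (if r + 1 ∈ II p then (f (r + 1) - f r) ^ 2 else 0) := by
  wlog hst : s ≤ t generalizing s t
  · have := this ht hs (le_of_not_ge hst)
    rw [show (f s - f t) ^ 2 = (f t - f s) ^ 2 by ring]
    exact this
  obtain ⟨n, hn⟩ := Int.eq_ofNat_of_zero_le (sub_nonneg.2 hst)
  have htn : t = s + n := by linarith
  have hs' := abs_le.1 (mem_II.1 hs)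
  have ht' := abs_le.1 (mem_II.1 ht)
  have hn2 : n ≤ 2 * p := by omega
  have e1 : f t - f s = ∑ k ∈ Finset.range n, (f (s + k + 1) - f (s + k)) := by
    have := Finset.sum_range_sub (fun k : ℕ => f (s + k)) n
    simp only [Nat.cast_add, Nat.cast_one, Nat.cast_zero, add_zero] at this
    rw [htn, ← this]
    refine Finset.sum_congr rfl fun k _ => ?_
    rw [add_assoc]
  have e2 : (f t - f s) ^ 2 ≤ n * ∑ k ∈ Finset.range n, (f (s + k + 1) - f (s + k)) ^ 2 := by
    rw [e1]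
    have := sq_sum_le_card_mul_sum_sq (s := Finset.range n)
      (f := fun k : ℕ => f (s + k + 1) - f (s + k))
    rwa [Finset.card_range] at this
  have e3 : ∑ k ∈ Finset.range n, (f (s + k + 1) - f (s + k)) ^ 2 ≤
      ∑ r ∈ II p, (if r + 1 ∈ II p then (f (r + 1) - f r) ^ 2 else 0) := by
    have e4 : ∑ k ∈ Finset.range n, (f (s + k + 1) - f (s + k)) ^ 2 =
        ∑ r ∈ (Finset.range n).image (fun k : ℕ => s + (k : ℤ)),
          (if r + 1 ∈ II p then (f (r + 1) - f r) ^ 2 else 0) := by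
      rw [Finset.sum_image]
      · refine Finset.sum_congr rfl fun k hk => ?_
        have hk' := Finset.mem_range.1 hk
        rw [if_pos]
        rw [mem_II, abs_le]; constructor <;> omega
      · intro a _ b _ hab
        simpa using hab
    rw [e4]
    apply Finset.sum_le_sum_of_subset_of_nonneg
    · intro r hr
      obtain ⟨k, hk, rfl⟩ := Finset.mem_image.1 hr
      have hk' := Finset.mem_range.1 hk
      rw [mem_II, abs_le]; constructor <;> omega
    · intro r _ _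
      split_ifs <;> positivity
  have hnn : 0 ≤ ∑ r ∈ II p, (if r + 1 ∈ II p then (f (r + 1) - f r) ^ 2 else 0) := by
    apply Finset.sum_nonneg
    intro r _
    split_ifs <;> positivity
  have hn3 : (n : ℝ) ≤ 2 * p + 1 := by
    have : (n : ℝ) ≤ 2 * p := by exact_mod_cast hn2
    linarith
  calc (f s - f t) ^ 2 = (f t - f s) ^ 2 := by ring
    _ ≤ _ := e2
    _ ≤ (n : ℝ) * ∑ r ∈ II p, (if r + 1 ∈ II p then (f (r + 1) - f r) ^ 2 else 0) := by gcongr
    _ ≤ _ := by gcongr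

/-- the cube centred at `0` -/
noncomputable def CC (d p : ℕ) : Finset (V d) := Fintype.piFinset fun _ => II p

lemma mem_CC {p : ℕ} {x : V d} : x ∈ CC d p ↔ ∀ i, x i ∈ II p := by
  unfold CC; rw [Fintype.mem_piFinset]

lemma CC_eq (p : ℕ) : CC d p = Q (0 : V d) p := by
  ext x
  rw [mem_CC, mem_Q]
  refine forall_congr' fun i => ?_
  rw [mem_II]; simp

/-- the squared difference along an edge of the cube -/
noncomputable def Gk (p : ℕ) (h : V d → ℝ) (k : Fin d) (x : V d) : ℝ :=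
  if x + ee k ∈ CC d p then (h (x + ee k) - h x) ^ 2 else 0

lemma update_mem {p : ℕ} {x : V d} (hx : x ∈ CC d p) {k : Fin d} {r : ℤ} (hr : r ∈ II p) :
    Function.update x k r ∈ CC d p := by
  rw [mem_CC] at *
  intro i
  by_cases hi : i = k
  · subst hi; simpa using hr
  · rw [Function.update_of_ne hi]; exact hx i

lemma update_add (x : V d) (k : Fin d) (r : ℤ) :
    Function.update x k r + ee k = Function.update x k (r + 1) := by
  funext i
  by_cases hi : i = k
  · subst hi; simp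
  · simp [Function.update_of_ne hi, Pi.single_eq_of_ne hi]

lemma update_mem_iff {p : ℕ} {x : V d} (hx : x ∈ CC d p) {k : Fin d} {r : ℤ} :
    Function.update x k r ∈ CC d p ↔ r ∈ II p := by
  constructor
  · intro h
    have := (mem_CC.1 h) k
    simpa using this
  · exact update_mem hx

lemma sum_update (p : ℕ) (k : Fin d) (G : V d → ℝ) :
    ∑ x ∈ CC d p, ∑ r ∈ II p, G (Function.update x k r) = (2 * p + 1) * ∑ x ∈ CC d p, G x := by
  rw [← Finset.sum_product' (f := fun x r => G (Function.update x k r))]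
  have : ∑ y ∈ CC d p ×ˢ II p, G (Function.update y.1 k y.2) = ∑ y ∈ CC d p ×ˢ II p, G y.1 := by
    refine Finset.sum_nbij' (fun y => (Function.update y.1 k y.2, y.1 k))
      (fun y => (Function.update y.1 k y.2, y.1 k)) ?_ ?_ ?_ ?_ ?_
    · rintro ⟨x, r⟩ h
      rw [Finset.mem_product] at h ⊢
      exact ⟨update_mem h.1 h.2, (mem_CC.1 h.1) k⟩
    · rintro ⟨x, r⟩ h
      rw [Finset.mem_product] at h ⊢
      exact ⟨update_mem h.1 h.2, (mem_CC.1 h.1) k⟩
    · rintro ⟨x, r⟩ _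
      simp
    · rintro ⟨x, r⟩ _
      simp
    · rintro ⟨x, r⟩ _
      rfl
  rw [this, Finset.sum_product' (f := fun x _ => G x)]
  simp only [Finset.sum_const, card_II, nsmul_eq_mul]
  rw [← Finset.mul_sum]
  push_cast; ring

lemma sum_line {p : ℕ} (h : V d → ℝ) (k : Fin d) :
    ∑ x ∈ CC d p, ∑ t ∈ II p, (h x - h (Function.update x k t)) ^ 2 ≤
      (2 * p + 1) ^ 3 * ∑ x ∈ CC d p, Gk p h k x := by
  have h1 : ∀ x ∈ CC d p, ∀ t ∈ II p, (h x - h (Function.update x k t)) ^ 2 ≤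
      (2 * p + 1) * ∑ r ∈ II p, Gk p h k (Function.update x k r) := by
    intro x hx t ht
    have := line (fun r => h (Function.update x k r)) ((mem_CC.1 hx) k) ht
    simp only [Function.update_eq_self] at this
    refine this.trans (le_of_eq ?_)
    congr 1
    refine Finset.sum_congr rfl fun r _ => ?_
    unfold Gk
    rw [update_add]
    by_cases hr : r + 1 ∈ II p
    · rw [if_pos hr, if_pos ((update_mem_iff hx).2 hr)]
    · rw [if_neg hr, if_neg (fun hc => hr ((update_mem_iff hx).1 hc))]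
  calc ∑ x ∈ CC d p, ∑ t ∈ II p, (h x - h (Function.update x k t)) ^ 2
      ≤ ∑ x ∈ CC d p, ∑ t ∈ II p, (2 * p + 1) * ∑ r ∈ II p, Gk p h k (Function.update x k r) :=
        Finset.sum_le_sum fun x hx => Finset.sum_le_sum fun t ht => h1 x hx t ht
    _ = (2 * p + 1) ^ 2 * ∑ x ∈ CC d p, ∑ r ∈ II p, Gk p h k (Function.update x k r) := by
        simp only [Finset.sum_const, card_II, nsmul_eq_mul]
        rw [Finset.mul_sum]
        refine Finset.sum_congr rfl fun x _ => ?_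
        push_cast; ring
    _ = _ := by rw [sum_update]; ring

/-- interpolation between two points -/
def zz (k : ℕ) (x y : V d) : V d := fun i => if (i : ℕ) < k then y i else x i

lemma zz_zero (x y : V d) : zz 0 x y = x := by funext i; simp [zz]

lemma zz_top (x y : V d) : zz d x y = y := by funext i; simp [zz]

lemma zz_succ {k : ℕ} (hk : k < d) (x y : V d) :
    zz (k + 1) x y = Function.update (zz k x y) ⟨k, hk⟩ (y ⟨k, hk⟩) := by
  funext i
  by_cases hi : i = ⟨k, hk⟩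
  · subst hi; simp [zz]
  · rw [Function.update_of_ne hi]
    unfold zz
    have : (i : ℕ) ≠ k := fun hc => hi (Fin.ext hc)
    by_cases h2 : (i : ℕ) < k
    · rw [if_pos (by omega), if_pos h2]
    · rw [if_neg (by omega), if_neg h2]

lemma zz_zz (k : ℕ) (x y : V d) : zz k (zz k x y) (zz k y x) = x := by
  funext i
  unfold zz
  split_ifs <;> rfl

lemma zz_mem {p : ℕ} {k : ℕ} {x y : V d} (hx : x ∈ CC d p) (hy : y ∈ CC d p) :
    zz k x y ∈ CC d p := by
  rw [mem_CC] at *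
  intro i
  unfold zz
  split_ifs
  · exact hy i
  · exact hx i

lemma sum_step {p k : ℕ} (hk : k < d) (h : V d → ℝ) :
    ∑ x ∈ CC d p, ∑ y ∈ CC d p, (h (zz k x y) - h (zz (k + 1) x y)) ^ 2 ≤
      (2 * p + 1) ^ (d + 2) * ∑ x ∈ CC d p, Gk p h ⟨k, hk⟩ x := by
  have e1 : ∑ x ∈ CC d p, ∑ y ∈ CC d p, (h (zz k x y) - h (zz (k + 1) x y)) ^ 2 =
      ∑ x ∈ CC d p, ∑ y ∈ CC d p, (h x - h (Function.update x ⟨k, hk⟩ (y ⟨k, hk⟩))) ^ 2 := by
    rw [← Finset.sum_product' (f := fun x y => (h (zz k x y) - h (zz (k + 1) x y)) ^ 2),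
      ← Finset.sum_product' (f := fun (x y : V d) =>
        (h x - h (Function.update x ⟨k, hk⟩ (y ⟨k, hk⟩))) ^ 2)]
    refine Finset.sum_nbij' (fun y => (zz k y.1 y.2, zz k y.2 y.1))
      (fun y => (zz k y.1 y.2, zz k y.2 y.1)) ?_ ?_ ?_ ?_ ?_
    · rintro ⟨x, y⟩ hxy
      rw [Finset.mem_product] at hxy ⊢
      exact ⟨zz_mem hxy.1 hxy.2, zz_mem hxy.2 hxy.1⟩
    · rintro ⟨x, y⟩ hxy
      rw [Finset.mem_product] at hxy ⊢
      exact ⟨zz_mem hxy.1 hxy.2, zz_mem hxy.2 hxy.1⟩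
    · rintro ⟨x, y⟩ _
      simp only [zz_zz]
    · rintro ⟨x, y⟩ _
      simp only [zz_zz]
    · rintro ⟨x, y⟩ _
      simp only
      rw [zz_succ hk]
      have : (zz k y x) ⟨k, hk⟩ = y ⟨k, hk⟩ := by simp [zz]
      rw [this]
  rw [e1]
  have e2 : ∀ x ∈ CC d p, ∑ y ∈ CC d p, (h x - h (Function.update x ⟨k, hk⟩ (y ⟨k, hk⟩))) ^ 2 =
      (2 * p + 1) ^ (d - 1) * ∑ t ∈ II p, (h x - h (Function.update x ⟨k, hk⟩ t)) ^ 2 := by
    intro x _
    have := Fintype.sum_piFinset_apply (fun t => (h x - h (Function.update x ⟨k, hk⟩ t)) ^ 2)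
      (II p) (⟨k, hk⟩ : Fin d)
    unfold CC
    rw [this, Fintype.card_fin, card_II, nsmul_eq_mul]
    push_cast; ring
  rw [Finset.sum_congr rfl e2, ← Finset.mul_sum]
  have e3 := sum_line (p := p) h ⟨k, hk⟩
  calc (2 * (p : ℝ) + 1) ^ (d - 1) * ∑ x ∈ CC d p, ∑ t ∈ II p,
        (h x - h (Function.update x ⟨k, hk⟩ t)) ^ 2
      ≤ (2 * (p : ℝ) + 1) ^ (d - 1) * ((2 * p + 1) ^ 3 * ∑ x ∈ CC d p, Gk p h ⟨k, hk⟩ x) := by
        gcongr
    _ = _ := by
        rw [← mul_assoc, ← pow_add]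
        congr 2
        omega

lemma poincare0 (p : ℕ) (h : V d → ℝ) :
    ∑ x ∈ CC d p, ∑ y ∈ CC d p, (h x - h y) ^ 2 ≤
      d * (2 * p + 1) ^ (d + 2) * ∑ x ∈ CC d p, ∑ i, Gk p h i x := by
  have h1 : ∀ x y : V d, (h x - h y) ^ 2 ≤
      d * ∑ k ∈ Finset.range d, (h (zz k x y) - h (zz (k + 1) x y)) ^ 2 := by
    intro x y
    have e1 : h x - h y = ∑ k ∈ Finset.range d, (h (zz k x y) - h (zz (k + 1) x y)) := by
      rw [Finset.sum_range_sub' (fun k => h (zz k x y)) d, zz_zero, zz_top]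
    rw [e1]
    have := sq_sum_le_card_mul_sum_sq (s := Finset.range d)
      (f := fun k => h (zz k x y) - h (zz (k + 1) x y))
    rwa [Finset.card_range] at this
  calc ∑ x ∈ CC d p, ∑ y ∈ CC d p, (h x - h y) ^ 2
      ≤ ∑ x ∈ CC d p, ∑ y ∈ CC d p,
          d * ∑ k ∈ Finset.range d, (h (zz k x y) - h (zz (k + 1) x y)) ^ 2 :=
        Finset.sum_le_sum fun x _ => Finset.sum_le_sum fun y _ => h1 x y
    _ = d * ∑ k ∈ Finset.range d, ∑ x ∈ CC d p, ∑ y ∈ CC d p,
          (h (zz k x y) - h (zz (k + 1) x y)) ^ 2 := by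
        simp only [← Finset.mul_sum]
        congr 1
        rw [Finset.sum_comm]
        rw [← Finset.sum_comm]
        calc ∑ x ∈ CC d p, ∑ y ∈ CC d p, ∑ k ∈ Finset.range d,
              (h (zz k x y) - h (zz (k + 1) x y)) ^ 2
            = ∑ x ∈ CC d p, ∑ k ∈ Finset.range d, ∑ y ∈ CC d p,
              (h (zz k x y) - h (zz (k + 1) x y)) ^ 2 :=
              Finset.sum_congr rfl fun x _ => Finset.sum_comm
          _ = _ := Finset.sum_comm
    _ ≤ d * ∑ k : Fin d, (2 * (p : ℝ) + 1) ^ (d + 2) * ∑ x ∈ CC d p, Gk p h k x := by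
        gcongr
        rw [Finset.sum_range]
        exact Finset.sum_le_sum fun k _ => sum_step k.2 h
    _ = _ := by
        rw [← Finset.mul_sum, Finset.sum_comm]
        ring

end Pool.Agent.H39.R1
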