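import Pool.Agent.H39.R1.Cube

set_option autoImplicit false

/-! The probability of the initial event. -/

namespace Pool.Agent.H39.R1

open Finset MeasureTheory
open Pool.Agent.H12R2.And (V ee Q mem_Q card_Q Q_mono Q_trans Q_symm self_mem_Q sum_Q_shift mem_Q_shift
  NR Good PP Dep real_forall_eq)

variable {d : ℕ}

lemma dep_Many (b : Bool) (p : ℕ) (c : V d) : Dep (Q c p) {ω : V d → Bool | Many b p ω c} := by
  intro ω ω' h1 h2
  simp only [Set.mem_ofPred_eq, Many] at h2 ⊢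
  have : (Q c p).filter (fun x => ω' x = b) = (Q c p).filter (fun x => ω x = b) :=
    Finset.filter_congr fun x hx => by rw [h1 x hx]
  rw [this]; exact h2

lemma dep_JJ (b : Bool) (p q : ℕ) (a : V d) :
    Dep (Q a (p + q * (2 * p + 1))) {ω : V d → Bool | JJ b p q ω a} := by
  intro ω ω' h1 h2 z hz
  exact dep_Many b p (ctr a p z) ω ω' (fun x hx => h1 x (cell_subset hz hx)) (h2 z hz)

lemma not_Many_le (b : Bool) (p : ℕ) (c : V d) :
    (PP d).real {ω | ¬ Many b p ω c} ≤ (27 / 40 : ℝ) ^ ((2 * p + 1) ^ d) := by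
  classical
  set C := Q c p with hC
  set n := C.card with hn
  set m := n / 16 with hm
  have h1 : {ω : V d → Bool | ¬ Many b p ω c} ⊆
      ⋃ T ∈ C.powerset.filter (fun T => 16 * T.card < n),
        {ω : V d → Bool | ∀ x ∈ C \ T, ω x = !b} := by
    intro ω hω
    simp only [Set.mem_ofPred_eq, Many, not_le] at hω
    simp only [Set.mem_iUnion]
    refine ⟨C.filter fun x => ω x = b, ?_, ?_⟩
    · rw [Finset.mem_filter, Finset.mem_powerset]
      exact ⟨Finset.filter_subset _ _, hω⟩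
    · intro x hx
      rw [Finset.mem_sdiff, Finset.mem_filter] at hx
      have : ω x ≠ b := fun hc => hx.2 ⟨hx.1, hc⟩
      revert this
      cases ω x <;> cases b <;> simp
  have h2 : ∀ T ∈ C.powerset.filter (fun T => 16 * T.card < n),
      (PP d).real {ω : V d → Bool | ∀ x ∈ C \ T, ω x = !b} ≤
        16 ^ m * (1 / 2 : ℝ) ^ n * ((1 / 8 : ℝ) ^ T.card * 1 ^ (n - T.card)) := by
    intro T hT
    rw [Finset.mem_filter, Finset.mem_powerset] at hT
    rw [real_forall_eq, Finset.card_sdiff_of_subset hT.1, one_pow, mul_one]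
    have hT2 : T.card ≤ m := by rw [hm]; omega
    have hTn : T.card ≤ n := Finset.card_le_card hT.1
    have e1 : (1 / 2 : ℝ) ^ n = (1 / 2 : ℝ) ^ (n - T.card) * (1 / 2) ^ T.card := by
      rw [← pow_add, Nat.sub_add_cancel hTn]
    have e2 : (16 : ℝ) ^ T.card ≤ 16 ^ m := pow_le_pow_right₀ (by norm_num) hT2
    have e3 : (1 / 2 : ℝ) ^ T.card * (1 / 8) ^ T.card * 16 ^ T.card = 1 := by
      rw [← mul_pow, ← mul_pow]; norm_num
    have hp : (0 : ℝ) < (1 / 2) ^ (n - T.card) := by positivity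
    rw [e1]
    calc (1 / 2 : ℝ) ^ (n - T.card)
        = (1 / 2 : ℝ) ^ (n - T.card) * ((1 / 2 : ℝ) ^ T.card * (1 / 8) ^ T.card * 16 ^ T.card) := by
          rw [e3, mul_one]
      _ ≤ (1 / 2 : ℝ) ^ (n - T.card) * ((1 / 2 : ℝ) ^ T.card * (1 / 8) ^ T.card * 16 ^ m) := by
          gcongr
      _ = _ := by ring
  have h3 : (16 : ℝ) ^ m ≤ (6 / 5) ^ n := by
    calc (16 : ℝ) ^ m ≤ ((6 / 5) ^ 16) ^ m := by gcongr; norm_num
      _ = (6 / 5) ^ (16 * m) := by rw [← pow_mul]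
      _ ≤ (6 / 5) ^ n := pow_le_pow_right₀ (by norm_num) (Nat.mul_div_le n 16)
  calc (PP d).real {ω | ¬ Many b p ω c}
      ≤ (PP d).real (⋃ T ∈ C.powerset.filter (fun T => 16 * T.card < n),
        {ω : V d → Bool | ∀ x ∈ C \ T, ω x = !b}) := measureReal_mono h1 (measure_ne_top _ _)
    _ ≤ ∑ T ∈ C.powerset.filter (fun T => 16 * T.card < n),
        (PP d).real {ω : V d → Bool | ∀ x ∈ C \ T, ω x = !b} := measureReal_biUnion_finset_le _ _
    _ ≤ ∑ T ∈ C.powerset.filter (fun T => 16 * T.card < n),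
        16 ^ m * (1 / 2 : ℝ) ^ n * ((1 / 8 : ℝ) ^ T.card * 1 ^ (n - T.card)) :=
        Finset.sum_le_sum h2
    _ ≤ ∑ T ∈ C.powerset, 16 ^ m * (1 / 2 : ℝ) ^ n * ((1 / 8 : ℝ) ^ T.card * 1 ^ (n - T.card)) :=
        Finset.sum_le_sum_of_subset_of_nonneg (Finset.filter_subset _ _)
          fun _ _ _ => by positivity
    _ = 16 ^ m * (1 / 2 : ℝ) ^ n * (1 / 8 + 1) ^ n := by
        rw [← Finset.mul_sum, Finset.sum_pow_mul_eq_add_pow]
    _ ≤ (6 / 5) ^ n * (1 / 2 : ℝ) ^ n * (1 / 8 + 1) ^ n := by gcongr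
    _ = (27 / 40 : ℝ) ^ n := by rw [← mul_pow, ← mul_pow]; norm_num
    _ = _ := by rw [hn, hC, card_Q]

lemma not_JJ_le (b : Bool) (p q : ℕ) (a : V d) :
    (PP d).real {ω | ¬ JJ b p q ω a} ≤ (2 * q + 1) ^ d * (27 / 40 : ℝ) ^ ((2 * p + 1) ^ d) := by
  have h1 : {ω : V d → Bool | ¬ JJ b p q ω a} ⊆
      ⋃ z ∈ Q (0 : V d) q, {ω : V d → Bool | ¬ Many b p ω (ctr a p z)} := by
    intro ω hω
    simp only [Set.mem_ofPred_eq, JJ, not_forall] at hω
    obtain ⟨z, hz, h⟩ := hω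
    simp only [Set.mem_iUnion]
    exact ⟨z, hz, h⟩
  calc (PP d).real {ω | ¬ JJ b p q ω a} ≤ _ := measureReal_mono h1 (measure_ne_top _ _)
    _ ≤ ∑ z ∈ Q (0 : V d) q, (PP d).real {ω : V d → Bool | ¬ Many b p ω (ctr a p z)} :=
        measureReal_biUnion_finset_le _ _
    _ ≤ ∑ z ∈ Q (0 : V d) q, (27 / 40 : ℝ) ^ ((2 * p + 1) ^ d) :=
        Finset.sum_le_sum fun z _ => not_Many_le b p _
    _ = _ := by
        rw [Finset.sum_const, card_Q, nsmul_eq_mul]; push_cast; ring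

end Pool.Agent.H39.R1
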