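import Pool.Agent.H39.R1.Gen

set_option autoImplicit false

/-! The measure of the exceptional energies. -/

namespace Pool.Agent.H39.R1

open Finset Complex MeasureTheory ProbabilityTheory Filter
open scoped ENNReal
open Pool.Agent.H12R2.And (V ee Q mem_Q card_Q Q_mono NR PP Good IsH Rz gg volume_not_NR)

variable {d : ℕ}

lemma lintegral_not_RR {τ : ℝ} (hτ : 0 ≤ τ) (L : ℕ) (hL : 1 ≤ L) :
    ∫⁻ E, (PP d) {ω | ¬ RR τ ω E L (0 : V d)} ≤
      ENNReal.ofReal (6 * τ * (17 * L) ^ d) := by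
  have hm : MeasurableSet {p : (V d → Bool) × ℝ | ¬ RR τ p.1 p.2 L (0 : V d)} :=
    (joint_RR τ L 0).compl
  have h1 : ((PP d).prod volume) {p : (V d → Bool) × ℝ | ¬ RR τ p.1 p.2 L (0 : V d)}
      = ∫⁻ E, (PP d) {ω | ¬ RR τ ω E L (0 : V d)} := by
    rw [Measure.prod_apply_symm hm]; rfl
  have h2 : ((PP d).prod volume) {p : (V d → Bool) × ℝ | ¬ RR τ p.1 p.2 L (0 : V d)}
      = ∫⁻ ω, volume {E | ¬ RR τ ω E L (0 : V d)} ∂(PP d) := by
    rw [Measure.prod_apply hm]; rfl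
  rw [← h1, h2]
  have h3 : ∀ ω : V d → Bool, volume {E | ¬ RR τ ω E L (0 : V d)} ≤
      ENNReal.ofReal (6 * τ * (17 * L) ^ d) := by
    intro ω
    have hsub : {E | ¬ RR τ ω E L (0 : V d)} ⊆
        ⋃ j ∈ Finset.range 3, {E | ¬ NR ω E (Q (0 : V d) ((3 * j + 2) * L - 1)) τ} := by
      intro E hE
      simp only [RR, Set.mem_ofPred_eq, not_forall] at hE
      obtain ⟨j, hj, h⟩ := hE
      simp only [Set.mem_iUnion]
      exact ⟨j, Finset.mem_range.2 hj, h⟩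
    have h4 : ∀ j ∈ Finset.range 3,
        volume {E | ¬ NR ω E (Q (0 : V d) ((3 * j + 2) * L - 1)) τ}
          ≤ ENNReal.ofReal (2 * τ * (17 * L) ^ d) := by
      intro j hj
      refine (volume_not_NR ω _ hτ).trans ?_
      apply ENNReal.ofReal_le_ofReal
      rw [card_Q]
      have h5 : 2 * ((3 * j + 2) * L - 1) + 1 ≤ 17 * L := by
        have : (3 * j + 2) * L ≤ 8 * L := Nat.mul_le_mul_right _ (by
          have := Finset.mem_range.1 hj; omega)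
        omega
      have h6 : ((2 * ((3 * j + 2) * L - 1) + 1 : ℕ) : ℝ) ≤ 17 * L := by exact_mod_cast h5
      rw [Nat.cast_pow]
      gcongr
    calc volume {E | ¬ RR τ ω E L (0 : V d)} ≤ _ := measure_mono hsub
      _ ≤ ∑ j ∈ Finset.range 3,
          volume {E | ¬ NR ω E (Q (0 : V d) ((3 * j + 2) * L - 1)) τ} :=
          measure_biUnion_finset_le _ _
      _ ≤ ∑ j ∈ Finset.range 3, ENNReal.ofReal (2 * τ * (17 * L) ^ d) :=
          Finset.sum_le_sum h4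
      _ = ENNReal.ofReal (6 * τ * (17 * L) ^ d) := by
          rw [Finset.sum_const, Finset.card_range, nsmul_eq_mul,
            ← ENNReal.ofReal_natCast, ← ENNReal.ofReal_mul (by positivity)]
          congr 1; push_cast; ring
  calc ∫⁻ ω, volume {E | ¬ RR τ ω E L (0 : V d)} ∂(PP d)
      ≤ ∫⁻ _, ENNReal.ofReal (6 * τ * (17 * L) ^ d) ∂(PP d) := lintegral_mono h3
    _ = _ := by simp

lemma volume_bad {τ : ℝ} (hτ : 0 ≤ τ) {L : ℕ} (hL : 1 ≤ L) :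
    volume {E | ¬ (PP d).real {ω | ¬ RR τ ω E L (0 : V d)} ≤ ((L : ℝ) ^ (2 * d + 2))⁻¹}
      ≤ ENNReal.ofReal (6 * τ * (17 * L) ^ d * (L : ℝ) ^ (2 * d + 2)) := by
  have hL' : (0 : ℝ) < L := by exact_mod_cast hL
  set t : ℝ := ((L : ℝ) ^ (2 * d + 2))⁻¹ with ht
  have ht0 : 0 < t := by positivity
  have hsub : {E | ¬ (PP d).real {ω | ¬ RR τ ω E L (0 : V d)} ≤ t} ⊆
      {E | ENNReal.ofReal t ≤ (PP d) {ω | ¬ RR τ ω E L (0 : V d)}} := by
    intro E hE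
    simp only [Set.mem_ofPred_eq, not_le] at hE ⊢
    rw [ENNReal.ofReal_le_iff_le_toReal (measure_ne_top _ _)]
    exact hE.le
  have h1 := mul_meas_ge_le_lintegral (μ := (volume : Measure ℝ)) (meas_prob_RR (d := d) τ L)
    (ENNReal.ofReal t)
  have h2 := h1.trans (lintegral_not_RR (d := d) hτ L hL)
  have h3 : volume {E | ENNReal.ofReal t ≤ (PP d) {ω | ¬ RR τ ω E L (0 : V d)}} ≤
      ENNReal.ofReal (6 * τ * (17 * L) ^ d) / ENNReal.ofReal t := by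
    rw [ENNReal.le_div_iff_mul_le (Or.inl (by simpa using ht0)) (Or.inl ENNReal.ofReal_ne_top)]
    rwa [mul_comm]
  refine (measure_mono hsub).trans (h3.trans ?_)
  rw [← ENNReal.ofReal_div_of_pos ht0]
  apply ENNReal.ofReal_le_ofReal
  rw [ht, div_inv_eq_mul]

lemma volume_compl_XX {τ : ℕ → ℝ} {L0 : ℕ} (hτ : ∀ k, 0 ≤ τ k) (hL1 : 1 ≤ L0) {δ : ℝ} (hδ : 0 ≤ δ)
    (h : ∀ k, 6 * τ k * (17 * ((10 ^ k * L0 : ℕ) : ℝ)) ^ d * ((10 ^ k * L0 : ℕ) : ℝ) ^ (2 * d + 2)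
      ≤ δ / 2 * (1 / 2) ^ k) :
    volume (XX d τ L0)ᶜ ≤ ENNReal.ofReal δ := by
  have h1 : (XX d τ L0)ᶜ ⊆ ⋃ k : ℕ, {E | ¬ (PP d).real {ω | ¬ RR (τ k) ω E (10 ^ k * L0) (0 : V d)}
      ≤ (((10 ^ k * L0 : ℕ) : ℝ) ^ (2 * d + 2))⁻¹} := by
    intro E hE
    simp only [XX, Set.mem_compl_iff, Set.mem_ofPred_eq, not_forall] at hE
    simp only [Set.mem_iUnion, Set.mem_ofPred_eq]
    exact hE
  have h2 : ∀ k : ℕ, volume {E | ¬ (PP d).real {ω | ¬ RR (τ k) ω E (10 ^ k * L0) (0 : V d)}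
      ≤ (((10 ^ k * L0 : ℕ) : ℝ) ^ (2 * d + 2))⁻¹} ≤
        ENNReal.ofReal (δ / 2 * (1 / 2) ^ k) := by
    intro k
    have hk : 1 ≤ 10 ^ k * L0 := Nat.one_le_iff_ne_zero.mpr (by positivity)
    exact (volume_bad (hτ k) hk).trans (ENNReal.ofReal_le_ofReal (h k))
  have hsum : Summable fun k : ℕ => δ / 2 * (1 / 2 : ℝ) ^ k :=
    summable_geometric_two.mul_left _
  calc volume (XX d τ L0)ᶜ ≤ _ := measure_mono h1
    _ ≤ ∑' k : ℕ, volume {E | ¬ (PP d).real {ω | ¬ RR (τ k) ω E (10 ^ k * L0) (0 : V d)}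
      ≤ (((10 ^ k * L0 : ℕ) : ℝ) ^ (2 * d + 2))⁻¹} := measure_iUnion_le _
    _ ≤ ∑' k : ℕ, ENNReal.ofReal (δ / 2 * (1 / 2) ^ k) :=
        ENNReal.tsum_le_tsum h2
    _ = ENNReal.ofReal (∑' k : ℕ, δ / 2 * (1 / 2 : ℝ) ^ k) :=
        (ENNReal.ofReal_tsum_of_nonneg (fun k => by positivity) hsum).symm
    _ = ENNReal.ofReal δ := by
        rw [tsum_mul_left, tsum_geometric_two]
        congr 1; ring

end Pool.Agent.H39.R1
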